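import Pool.Agent.NOD.S1

/-!
# Project NOD, section S1: basic lemmas on homogeneous ideals and `PReg`
-/

set_option autoImplicit false

namespace Pool.Agent.NOD

open MvPolynomial

/-- Permutations and subsequences. -/
theorem PReg.comp {m n : ℕ} {f : Fin n → A} (hf : PReg f) {σ : Fin m → Fin n}
    (hσ : Function.Injective σ) : PReg (f ∘ σ) := by
  classical
  intro S i hi
  have h := hf (S.image σ) (σ i) (by
    simp only [Finset.mem_image, not_exists, not_and]
    intro j hj hji
    exact hi (hσ hji ▸ hj))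
  rw [Finset.coe_image, ← Set.image_comp] at h
  exact h

theorem homComp_mul_left {f : A} {b : ℕ} (hf : f.IsHomogeneous b) (g : A) (n : ℕ) :
    homogeneousComponent (n + b) (f * g) = f * homogeneousComponent n g := by
  classical
  have h1 : f * g = ∑ i ∈ Finset.range (g.totalDegree + 1), f * homogeneousComponent i g := by
    rw [← Finset.mul_sum, sum_homogeneousComponent]
  rw [h1, map_sum]
  have h2 : ∀ i ∈ Finset.range (g.totalDegree + 1),
      homogeneousComponent (n + b) (f * homogeneousComponent i g)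
        = if i = n then f * homogeneousComponent n g else 0 := by
    intro i _
    have h3 : (f * homogeneousComponent i g).IsHomogeneous (b + i) :=
      hf.mul (homogeneousComponent_isHomogeneous i g)
    rw [homogeneousComponent_of_mem h3]
    by_cases hin : i = n
    · subst hin
      simp [add_comm]
    · have : n + b ≠ b + i := by omega
      simp [hin, this]
  rw [Finset.sum_congr rfl h2, Finset.sum_ite_eq']
  split_ifs with h
  · rfl
  · have : g.totalDegree < n := by
      simp only [Finset.mem_range, not_lt] at h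
      omega
    rw [homogeneousComponent_eq_zero _ _ this, mul_zero]

theorem homComp_mul_left' {f : A} {b : ℕ} (hf : f.IsHomogeneous b) (g : A) {n : ℕ} (hn : b ≤ n) :
    homogeneousComponent n (f * g) = f * homogeneousComponent (n - b) g := by
  have := homComp_mul_left hf g (n - b)
  rwa [Nat.sub_add_cancel hn] at this

theorem homComp_mul_left_lt {f : A} {b : ℕ} (hf : f.IsHomogeneous b) (g : A) {n : ℕ}
    (hn : n < b) : homogeneousComponent n (f * g) = 0 := by
  classical
  have h1 : f * g = ∑ i ∈ Finset.range (g.totalDegree + 1), f * homogeneousComponent i g := by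
    rw [← Finset.mul_sum, sum_homogeneousComponent]
  rw [h1, map_sum]
  refine Finset.sum_eq_zero fun i _ => ?_
  have h3 : (f * homogeneousComponent i g).IsHomogeneous (b + i) :=
    hf.mul (homogeneousComponent_isHomogeneous i g)
  rw [homogeneousComponent_of_mem h3, if_neg (by omega)]

theorem homComp_self {f : A} {b : ℕ} (hf : f.IsHomogeneous b) : homogeneousComponent b f = f := by
  rw [homogeneousComponent_of_mem hf, if_pos rfl]

theorem homComp_ne {f : A} {b n : ℕ} (hf : f.IsHomogeneous b) (h : n ≠ b) :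
    homogeneousComponent n f = 0 := by
  rw [homogeneousComponent_of_mem hf, if_neg h]

theorem mem_of_homComp {I : Ideal A} {g : A} (h : ∀ n, homogeneousComponent n g ∈ I) : g ∈ I := by
  rw [← sum_homogeneousComponent g]
  exact Ideal.sum_mem _ fun i _ => h i

theorem HomId.mem_iff {I : Ideal A} (hI : HomId I) (g : A) :
    g ∈ I ↔ ∀ n, homogeneousComponent n g ∈ I :=
  ⟨fun h n => hI g h n, mem_of_homComp⟩

theorem homId_bot : HomId ⊥ := by
  intro f hf n
  rw [Ideal.mem_bot] at hf
  rw [hf, map_zero]
  exact Ideal.zero_mem _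

theorem HomId.sup {I J : Ideal A} (hI : HomId I) (hJ : HomId J) : HomId (I ⊔ J) := by
  intro f hf n
  rw [Submodule.mem_sup] at hf
  obtain ⟨a, ha, c, hc, rfl⟩ := hf
  rw [map_add]
  exact Ideal.add_mem _ (Ideal.mem_sup_left (hI a ha n)) (Ideal.mem_sup_right (hJ c hc n))

theorem homId_singleton {f : A} {b : ℕ} (hf : f.IsHomogeneous b) : HomId (Ideal.span {f}) := by
  intro g hg n
  rw [Ideal.mem_span_singleton'] at hg
  obtain ⟨a, rfl⟩ := hg
  rw [mul_comm]
  by_cases hn : b ≤ n
  · rw [homComp_mul_left' hf _ hn]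
    exact Ideal.mul_mem_right _ _ (Ideal.mem_span_singleton_self f)
  · rw [homComp_mul_left_lt hf _ (by omega)]
    exact Ideal.zero_mem _

theorem homId_span {T : Set A} (hT : ∀ t ∈ T, ∃ n, t.IsHomogeneous n) : HomId (Ideal.span T) := by
  have key : ∀ f ∈ Ideal.span T, ∀ (a : A) (n : ℕ), homogeneousComponent n (a * f) ∈ Ideal.span T := by
    intro f hf
    induction hf using Submodule.span_induction with
    | mem t ht =>
      intro a n
      obtain ⟨m, hm⟩ := hT t ht
      have := homId_singleton hm (a * t) (Ideal.mul_mem_left _ _ (Ideal.mem_span_singleton_self t)) n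
      exact (Ideal.span_mono (by simpa using ht)) this
    | zero => intro a n; rw [mul_zero, map_zero]; exact Ideal.zero_mem _
    | add x y _ _ hx hy => intro a n; rw [mul_add, map_add]; exact Ideal.add_mem _ (hx a n) (hy a n)
    | smul c x _ hx => intro a n; rw [smul_eq_mul, ← mul_assoc]; exact hx _ n
  intro f hf n
  have := key f hf 1 n
  rwa [one_mul] at this

theorem homId_range {r : ℕ} {f : Fin r → A} {b : Fin r → ℕ} (hf : ∀ j, (f j).IsHomogeneous (b j)) :
    HomId (Ideal.span (Set.range f)) :=
  homId_span (by rintro _ ⟨j, rfl⟩; exact ⟨b j, hf j⟩)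

theorem homId_image {r : ℕ} {f : Fin r → A} {b : Fin r → ℕ} (hf : ∀ j, (f j).IsHomogeneous (b j))
    (S : Set (Fin r)) : HomId (Ideal.span (f '' S)) :=
  homId_span (by rintro _ ⟨j, _, rfl⟩; exact ⟨b j, hf j⟩)

/-- A homogeneous ideal not contained in `q` has a homogeneous element outside `q`. -/
theorem HomId.exists_notMem {I q : Ideal A} (hI : HomId I) (h : ¬ I ≤ q) :
    ∃ f ∈ I, ∃ n, f.IsHomogeneous n ∧ f ∉ q := by
  by_contra hc
  push Not at hc
  apply h
  intro f hf
  apply mem_of_homComp
  intro n
  exact hc _ (hI f hf n) n (homogeneousComponent_isHomogeneous n f)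

theorem HomId.le_of_hom {I J : Ideal A} (hI : HomId I)
    (h : ∀ g ∈ I, ∀ n, g.IsHomogeneous n → g ∈ J) : I ≤ J := by
  intro f hf
  apply mem_of_homComp
  intro n
  exact h _ (hI f hf n) n (homogeneousComponent_isHomogeneous n f)

/-- Membership in `I ⊔ span {f}`. -/
theorem mem_sup_span_singleton' {I : Ideal A} {f g : A} :
    g ∈ I ⊔ Ideal.span {f} ↔ ∃ h, ∃ i ∈ I, g = f * h + i := by
  rw [Submodule.mem_sup]
  constructor
  · rintro ⟨i, hi, c, hc, rfl⟩
    rw [Ideal.mem_span_singleton'] at hc
    obtain ⟨a, rfl⟩ := hc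
    exact ⟨a, i, hi, by ring⟩
  · rintro ⟨h, i, hi, rfl⟩
    exact ⟨i, hi, f * h, Ideal.mem_span_singleton'.2 ⟨h, by ring⟩, by ring⟩

/-- Homogeneous version of `mem_sup_span_singleton'`. -/
theorem hom_mem_sup {I : Ideal A} {f g : A} {b n : ℕ} (hI : HomId I) (hf : f.IsHomogeneous b)
    (hg : g.IsHomogeneous n) (h : g ∈ I ⊔ Ideal.span {f}) :
    (n < b ∧ g ∈ I) ∨ (b ≤ n ∧ ∃ x : A, x.IsHomogeneous (n - b) ∧ ∃ i ∈ I, g = f * x + i) := by
  obtain ⟨x, i, hi, e⟩ := mem_sup_span_singleton'.1 h
  have e2 := congrArg (homogeneousComponent n) e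
  rw [homComp_self hg, map_add] at e2
  by_cases hn : b ≤ n
  · right
    refine ⟨hn, homogeneousComponent (n - b) x, homogeneousComponent_isHomogeneous _ _,
      homogeneousComponent n i, hI i hi n, ?_⟩
    rw [e2, homComp_mul_left' hf x hn]
  · left
    refine ⟨by omega, ?_⟩
    rw [homComp_mul_left_lt hf x (by omega), zero_add] at e2
    rw [e2]
    exact hI i hi n

attribute [local instance] MvPolynomial.gradedAlgebra

theorem homId_iff (I : Ideal A) : HomId I ↔ I.IsHomogeneous (homogeneousSubmodule (Fin 5) ℂ) := by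
  constructor
  · intro h n f hf
    have := h f hf n
    rwa [← MvPolynomial.decomposition.decompose'_apply] at this
  · intro h f hf n
    have := h n hf
    rwa [← MvPolynomial.decomposition.decompose'_apply]

/-- The homogeneous core of a prime ideal. -/
theorem exists_core (q : Ideal A) (hq : q.IsPrime) : ∃ q' : Ideal A, q'.IsPrime ∧ HomId q' ∧
    q' ≤ q ∧ (∀ (f : A) (n : ℕ), f.IsHomogeneous n → f ∈ q → f ∈ q') ∧
    (∀ I : Ideal A, HomId I → I ≤ q → I ≤ q') := by
  have h1 := Ideal.IsPrime.homogeneousCore (𝒜 := homogeneousSubmodule (Fin 5) ℂ) hq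
  have h2 : ∀ (f : A) (n : ℕ), f.IsHomogeneous n → f ∈ q →
      f ∈ (q.homogeneousCore (homogeneousSubmodule (Fin 5) ℂ)).toIdeal := by
    intro f n hf hfq
    exact Ideal.mem_homogeneousCore_of_homogeneous_of_mem ⟨n, hf⟩ hfq
  refine ⟨_, h1, (homId_iff _).2 (HomogeneousIdeal.isHomogeneous _),
    Ideal.toIdeal_homogeneousCore_le _ _, h2, ?_⟩
  intro I hI hIq
  exact hI.le_of_hom fun g hg n hn => h2 g n hn (hIq hg)

/-- The ideal quotient of homogeneous ideals. -/
theorem exists_colon (P J : Ideal A) (hP : HomId P) (hJ : HomId J) :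
    ∃ K : Ideal A, HomId K ∧ ∀ u, u ∈ K ↔ ∀ p ∈ P, u * p ∈ J := by
  let K : Ideal A :=
    { carrier := {u | ∀ p ∈ P, u * p ∈ J}
      add_mem' := by
        intro a b ha hb p hp
        rw [add_mul]
        exact Ideal.add_mem _ (ha p hp) (hb p hp)
      zero_mem' := by
        intro p _
        rw [zero_mul]
        exact Ideal.zero_mem _
      smul_mem' := by
        intro c x hx p hp
        rw [smul_eq_mul, mul_assoc]
        exact Ideal.mul_mem_left _ _ (hx p hp) }
  refine ⟨K, ?_, fun u => Iff.rfl⟩
  intro u hu n p hp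
  -- test on components of `p`
  rw [hJ.mem_iff]
  have key : ∀ k, homogeneousComponent n u * homogeneousComponent k p ∈ J := by
    intro k
    have h1 : u * homogeneousComponent k p ∈ J := hu _ (hP p hp k)
    have h2 := hJ _ h1 (n + k)
    rwa [mul_comm u, homComp_mul_left (homogeneousComponent_isHomogeneous k p) u n, mul_comm] at h2
  have h3 : homogeneousComponent n u * p ∈ J := by
    have h5 : homogeneousComponent n u * p = ∑ k ∈ Finset.range (p.totalDegree + 1),
        homogeneousComponent n u * homogeneousComponent k p := by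
      rw [← Finset.mul_sum, sum_homogeneousComponent]
    rw [h5]
    exact Ideal.sum_mem _ fun k _ => key k
  exact fun k => hJ _ h3 k

theorem homId_of_forall {I : Ideal A} (h : ∀ f ∈ I, ∀ n, homogeneousComponent n f ∈ I) : HomId I := h

/-- Powers of nonzerodivisors. -/
theorem NZD.pow {I : Ideal A} {f : A} (h : NZD I f) (k : ℕ) : NZD I (f ^ k) := by
  induction k with
  | zero => intro g hg; rwa [pow_zero, one_mul] at hg
  | succ k ih =>
    intro g hg
    rw [pow_succ, mul_assoc] at hg
    exact h g (ih _ hg)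

theorem NZD.mul {I : Ideal A} {f g : A} (hf : NZD I f) (hg : NZD I g) : NZD I (f * g) := by
  intro x hx
  rw [mul_assoc] at hx
  exact hg x (hf _ hx)

end Pool.Agent.NOD
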