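import Pool.Agent.NOD.S1

/-!
# Project NOD, section S1, piece AVO
-/

set_option autoImplicit false

namespace Pool.Agent.NOD.S1

open MvPolynomial

namespace AVOP

/-- `f` is a form. -/
def Fm (f : A) : Prop := ∃ n, f.IsHomogeneous n

theorem Fm.mul {f g : A} (hf : Fm f) (hg : Fm g) : Fm (f * g) := by
  obtain ⟨n, hn⟩ := hf
  obtain ⟨m, hm⟩ := hg
  exact ⟨n + m, hn.mul hm⟩

theorem Fm.prod {ι : Type*} (s : Finset ι) (f : ι → A) (h : ∀ i ∈ s, Fm (f i)) :
    Fm (∏ i ∈ s, f i) := by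
  classical
  induction s using Finset.induction_on with
  | empty => exact ⟨0, by rw [Finset.prod_empty]; exact isHomogeneous_one _ _⟩
  | insert a s ha ih =>
    rw [Finset.prod_insert ha]
    exact (h a (Finset.mem_insert_self _ _)).mul
      (ih fun i hi => h i (Finset.mem_insert_of_mem hi))

/-- A homogeneous ideal not contained in `q` has a form outside `q`. -/
theorem exists_form {I q : Ideal A} (hI : HomId I) (h : ¬ I ≤ q) : ∃ f ∈ I, Fm f ∧ f ∉ q := by
  by_contra hcon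
  push Not at hcon
  apply h
  intro x hx
  rw [← sum_homogeneousComponent x]
  exact Ideal.sum_mem _ fun k _ =>
    hcon _ (hI x hx k) ⟨k, homogeneousComponent_isHomogeneous k x⟩

theorem main (I : Ideal A) (hI : HomId I) : ∀ (n : ℕ) (Q : Finset (Ideal A)), Q.card = n →
    (∀ q ∈ Q, q.IsPrime ∧ HasM q ∧ ¬ I ≤ q) →
    ∃ f ∈ I, (∃ n, 0 < n ∧ f.IsHomogeneous n) ∧ ∀ q ∈ Q, f ∉ q := by
  classical
  intro n
  induction n with
  | zero =>
    intro Q hc hQ
    rw [Finset.card_eq_zero] at hc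
    subst hc
    exact ⟨0, I.zero_mem, ⟨1, one_pos, isHomogeneous_zero _ _ _⟩, fun q hq => by simp at hq⟩
  | succ n ih =>
    intro Q hc hQ
    by_cases hcomp : ∃ q ∈ Q, ∃ q' ∈ Q, q ≠ q' ∧ ∀ f, Fm f → f ∈ q → f ∈ q'
    · obtain ⟨q, hq, q', hq', hne, hle⟩ := hcomp
      obtain ⟨f, hfI, ⟨m, hm, hfm⟩, hf⟩ := ih (Q.erase q) (by
        rw [Finset.card_erase_of_mem hq, hc]; rfl) fun r hr => hQ r (Finset.mem_of_mem_erase hr)
      refine ⟨f, hfI, ⟨m, hm, hfm⟩, fun r hr => ?_⟩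
      by_cases hrq : r = q
      · rw [hrq]
        intro h
        exact hf q' (Finset.mem_erase.2 ⟨hne.symm, hq'⟩) (hle f ⟨m, hfm⟩ h)
      · exact hf r (Finset.mem_erase.2 ⟨hrq, hr⟩)
    · push Not at hcomp
      -- hcomp : ∀ q ∈ Q, ∀ q' ∈ Q, q ≠ q' → ∃ f, Fm f ∧ f ∈ q ∧ f ∉ q'
      have hb : ∀ q ∈ Q, ∀ q' ∈ Q, q ≠ q' → ∃ f, Fm f ∧ f ∈ q' ∧ f ∉ q := fun q hq q' hq' hne =>
        hcomp q' hq' q hq hne.symm
      have ha : ∀ q ∈ Q, ∃ a : A, a ∈ I ∧ (∃ n, 0 < n ∧ a.IsHomogeneous n) ∧ a ∉ q ∧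
          ∀ q' ∈ Q, q' ≠ q → a ∈ q' := by
        intro q hq
        obtain ⟨hpr, ⟨i, hi⟩, hIq⟩ := hQ q hq
        obtain ⟨g, hgI, hgF, hgq⟩ := exists_form hI hIq
        choose! b hb1 hb2 hb3 using hb q hq
        have hprod : ∏ q' ∈ Q.erase q, b q' ∉ q := by
          intro h
          obtain ⟨q', hq', h'⟩ := Ideal.IsPrime.prod_mem_iff.1 h
          rw [Finset.mem_erase] at hq'
          exact hb3 q' hq'.2 hq'.1.symm h'
        have hF : Fm (g * ∏ q' ∈ Q.erase q, b q') := by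
          apply hgF.mul
          apply Fm.prod
          intro q' hq'
          rw [Finset.mem_erase] at hq'
          exact hb1 q' hq'.2 hq'.1.symm
        obtain ⟨m, hm⟩ := hF
        refine ⟨g * (∏ q' ∈ Q.erase q, b q') * X i, ?_, ⟨m + 1, Nat.succ_pos _, ?_⟩, ?_, ?_⟩
        · exact I.mul_mem_right _ (I.mul_mem_right _ hgI)
        · exact hm.mul (isHomogeneous_X _ _)
        · intro h
          rcases hpr.mem_or_mem h with h | h
          · rcases hpr.mem_or_mem h with h | h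
            · exact hgq h
            · exact hprod h
          · exact hi h
        · intro q' hq' hne
          apply Ideal.mul_mem_right
          apply Ideal.mul_mem_left
          rw [← Finset.mul_prod_erase _ _ (Finset.mem_erase.2 ⟨hne, hq'⟩)]
          exact Ideal.mul_mem_right _ _ (hb2 q' hq' hne.symm)
      choose! a ha1 ha2 ha3 ha4 using ha
      choose! N hN1 hN2 using ha2
      have hdiv : ∀ q ∈ Q, N q * ((∏ r ∈ Q, N r) / N q) = ∏ r ∈ Q, N r := fun q hq =>
        Nat.mul_div_cancel' (Finset.dvd_prod_of_mem N hq)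
      have hpos : 0 < ∏ r ∈ Q, N r := Finset.prod_pos hN1
      have hexp : ∀ q ∈ Q, 0 < (∏ r ∈ Q, N r) / N q := fun q hq => by
        rcases Nat.eq_zero_or_pos ((∏ r ∈ Q, N r) / N q) with h | h
        · have := hdiv q hq
          rw [h, mul_zero] at this
          omega
        · exact h
      refine ⟨∑ q ∈ Q, a q ^ ((∏ r ∈ Q, N r) / N q), ?_, ⟨∏ r ∈ Q, N r, hpos, ?_⟩, ?_⟩
      · exact I.sum_mem fun q hq => Ideal.pow_mem_of_mem _ (ha1 q hq) _ (hexp q hq)
      · apply IsHomogeneous.sum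
        intro q hq
        have := (hN2 q hq).pow ((∏ r ∈ Q, N r) / N q)
        rwa [hdiv q hq] at this
      · intro q hq h
        rw [← Finset.add_sum_erase _ _ hq] at h
        have h2 : ∑ r ∈ Q.erase q, a r ^ ((∏ r ∈ Q, N r) / N r) ∈ q := by
          refine q.sum_mem fun r hr => ?_
          rw [Finset.mem_erase] at hr
          exact Ideal.pow_mem_of_mem _ (ha4 r hr.2 q hq hr.1.symm) _ (hexp r hr.2)
        have h3 : a q ^ ((∏ r ∈ Q, N r) / N q) ∈ q := (Ideal.add_mem_iff_left q h2).1 h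
        exact ha3 q hq ((hQ q hq).1.mem_of_pow_mem _ h3)

end AVOP

theorem t_AVO : S_AVO := fun I Q hI hQ => AVOP.main I hI Q.card Q rfl hQ

end Pool.Agent.NOD.S1
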