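import Pool.Agent.NOD.S1
import Pool.Agent.NOD.S1.Basic

/-!
# Project NOD, section S1, piece CH1: one step in the construction of a chart (helper54)
-/

set_option autoImplicit false

namespace Pool.Agent.NOD.S1

open MvPolynomial

namespace CH1

/-- the finitely many homogeneous primes controlling the zero divisors modulo a sequence -/
lemma primes_one (hU : S_UNM) (hH : S_HTR) {d : ℕ} {F : A} (hF : F.IsHomogeneous d) {r : ℕ}
    (f : Fin r → A) (b : Fin r → ℕ) (hr : r ≤ 3) (hb : ∀ j, 0 < b j)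
    (hf : ∀ j, (f j).IsHomogeneous (b j)) (hP : PReg f) (hFf : F ∈ Ideal.span (Set.range f)) :
    ∃ Q : Finset (Ideal A), (∀ q ∈ Q, q.IsPrime ∧ HomId q ∧ HasM q ∧ F ∈ q ∧ q.height ≤ 3) ∧
      ∀ (u : A) (n : ℕ), u.IsHomogeneous n → (∀ q ∈ Q, u ∉ q) →
        NZD (Ideal.span (Set.range f)) u := by
  classical
  set I : Ideal A := Ideal.span (Set.range f) with hI
  have hfin : (associatedPrimes A (A ⧸ I)).Finite := associatedPrimes.finite A (A ⧸ I)
  have hass : ∀ q ∈ associatedPrimes A (A ⧸ I), q.IsPrime ∧ ∃ g : A, g ∉ I ∧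
      ∀ x ∈ q, x * g ∈ I := by
    intro q hq
    rw [AssociatedPrimes.mem_iff, isAssociatedPrime_iff] at hq
    obtain ⟨hpr, x, hx⟩ := hq
    refine ⟨hpr, ?_⟩
    obtain ⟨g, rfl⟩ := Ideal.Quotient.mk_surjective x
    refine ⟨g, ?_, ?_⟩
    · intro hg
      apply hpr.ne_top
      rw [hx, Ideal.eq_top_iff_one, Submodule.mem_colon_singleton,
        Ideal.Quotient.eq_zero_iff_mem.2 hg]
      simp
    · intro y hy
      rw [hx, Submodule.mem_colon_singleton] at hy
      rw [← Ideal.Quotient.eq_zero_iff_mem]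
      exact (Submodule.mem_bot A).1 hy
  have hIass : ∀ q ∈ associatedPrimes A (A ⧸ I), I ≤ q := by
    intro q hq a ha
    rw [AssociatedPrimes.mem_iff, isAssociatedPrime_iff] at hq
    obtain ⟨hpr, x, hx⟩ := hq
    obtain ⟨g, rfl⟩ := Ideal.Quotient.mk_surjective x
    rw [hx, Submodule.mem_colon_singleton]
    refine (Submodule.mem_bot A).2 ?_
    change Ideal.Quotient.mk I (a * g) = 0
    rw [Ideal.Quotient.eq_zero_iff_mem]
    exact Ideal.mul_mem_right _ _ ha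
  have hcore : ∀ q : Ideal A, ∃ q' : Ideal A, q.IsPrime → (q'.IsPrime ∧ HomId q' ∧
      q' ≤ q ∧ (∀ (f : A) (n : ℕ), f.IsHomogeneous n → f ∈ q → f ∈ q')) := by
    intro q
    by_cases hq : q.IsPrime
    · obtain ⟨q', h1, h2, h3, h4, -⟩ := exists_core q hq
      exact ⟨q', fun _ => ⟨h1, h2, h3, h4⟩⟩
    · exact ⟨q, fun h => absurd h hq⟩
  choose core hcore using hcore
  refine ⟨hfin.toFinset.image core, ?_, ?_⟩
  · intro q' hq'
    rw [Finset.mem_image] at hq'
    obtain ⟨q, hq, rfl⟩ := hq'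
    rw [Set.Finite.mem_toFinset] at hq
    obtain ⟨hpr, g, hg, hgq⟩ := hass q hq
    obtain ⟨h1, h2, h3, h4⟩ := hcore q hpr
    have h5 : (core q).height ≤ r :=
      hU r f b (by omega) hb hf hP (core q) g h1 h2 (fun a ha => hgq a (h3 ha)) hg
    have h6 : (core q).height ≤ 3 := h5.trans (by exact_mod_cast hr)
    refine ⟨h1, h2, ?_, h4 F d hF (hIass q hq hFf), h6⟩
    by_contra hc
    have h7 := hH.2.1 (core q) h1 (fun i => by
      by_contra h8
      exact hc ⟨i, h8⟩)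
    exact absurd (h7.trans h6) (by norm_num)
  · intro u n hu hq g hg
    by_contra hgI
    have h1 : u ∈ { r : A | ∃ x : A ⧸ I, x ≠ 0 ∧ r • x = 0 } := by
      refine ⟨Ideal.Quotient.mk I g, ?_, ?_⟩
      · rw [Ne, Ideal.Quotient.eq_zero_iff_mem]
        exact hgI
      · change Ideal.Quotient.mk I (u * g) = 0
        rw [Ideal.Quotient.eq_zero_iff_mem]
        exact hg
    rw [← biUnion_associatedPrimes_eq_zero_divisors] at h1
    simp only [Set.mem_iUnion] at h1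
    obtain ⟨q, hqa, huq⟩ := h1
    refine hq (core q) (Finset.mem_image_of_mem _ (hfin.mem_toFinset.2 hqa)) ?_
    exact (hcore q (hass q hqa).1).2.2.2 u n hu huq

lemma cons_preg (hI : S_INS) {r : ℕ} (f : Fin r → A) (b : Fin r → ℕ) (hb : ∀ j, 0 < b j)
    (hf : ∀ j, (f j).IsHomogeneous (b j)) (hP : PReg f) {u : A} {k : ℕ} (hk : 0 < k)
    (hu : u.IsHomogeneous k) (hn : NZD (Ideal.span (Set.range f)) u) :
    PReg (Fin.cons u f : Fin (r + 1) → A) := by
  have e : (Fin.cons u f : Fin (r + 1) → A) ∘ (0 : Fin (r + 1)).succAbove = f := by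
    funext j
    simp
  refine hI r (Fin.cons u f) (Fin.cons k b) 0 ?_ ?_ ?_ ?_
  · intro i
    refine Fin.cases ?_ (fun j => ?_) i
    · simpa using hk
    · simpa using hb j
  · intro i
    refine Fin.cases ?_ (fun j => ?_) i
    · simpa using hu
    · simpa using hf j
  · rw [e]; exact hP
  · rw [e]; simpa using hn

end CH1

theorem t_CH1 (h1 : S_LOC) (h2 : S_UNM) (h3 : S_HTR) (h4 : S_AVO) (h5 : S_GCH) (h6 : S_INS) :
    S_CH1 := by
  classical
  intro d F zs P hF hS hPp hPh hFP hP2 r f b hr hb hf hfP hFf r' f' b' hr' hb' hf' hfP' hFf'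
  obtain ⟨Q1, hQ1, hN1⟩ := CH1.primes_one h2 h3 hF f b hr hb hf hfP hFf
  obtain ⟨Q2, hQ2, hN2⟩ := CH1.primes_one h2 h3 hF f' b' hr' hb' hf' hfP' hFf'
  have hPm : HasM P := by
    by_contra hc
    have h7 := h3.2.1 P hPp (fun i => by
      by_contra h8
      exact hc ⟨i, h8⟩)
    rw [hP2] at h7
    exact absurd h7 (by norm_num)
  have hQ : ∀ q ∈ insert P (Q1 ∪ Q2), q.IsPrime ∧ HomId q ∧ HasM q ∧ F ∈ q ∧ q.height ≤ 3 := by
    intro q hq
    rw [Finset.mem_insert, Finset.mem_union] at hq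
    rcases hq with rfl | hq | hq
    · refine ⟨hPp, hPh, hPm, hFP, ?_⟩
      rw [hP2]
      norm_num
    · exact hQ1 q hq
    · exact hQ2 q hq
  obtain ⟨g, hgP, ⟨n, hgn⟩, hg⟩ := h5 F P (insert P (Q1 ∪ Q2)) hPp hPh hFP (by
    intro q hq
    obtain ⟨a1, a2, a3, a4, a5⟩ := hQ q hq
    refine ⟨a1, a2, a3, ?_⟩
    obtain ⟨g, hgP, hgn, u, -, huq, hu⟩ := h1 d F zs P q hF hS hPp hPh hFP hP2 a1 a2 a4 a5
    exact ⟨g, hgP, hgn, u, huq, hu⟩)
  have hJ : HomId (Ideal.span {F, g}) := homId_span (by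
    rintro t (rfl | ht)
    · exact ⟨d, hF⟩
    · rw [Set.mem_singleton_iff] at ht
      subst ht
      exact ⟨n, hgn⟩)
  obtain ⟨K, hK, hKm⟩ := exists_colon P (Ideal.span {F, g}) hPh hJ
  obtain ⟨u, huK, ⟨k, hk, huk⟩, hu⟩ := h4 K (insert P (Q1 ∪ Q2)) hK (by
    intro q hq
    obtain ⟨a1, a2, a3, a4, a5⟩ := hQ q hq
    refine ⟨a1, a3, fun hle => ?_⟩
    obtain ⟨v, hvq, hv⟩ := hg q hq
    exact hvq (hle ((hKm v).2 hv)))
  refine ⟨u, g, k, n, hk, huk, hgn, hgP, hu P (Finset.mem_insert_self _ _), (hKm u).1 huK, ?_, ?_⟩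
  · exact CH1.cons_preg h6 f b hb hf hfP hk huk (hN1 u k huk fun q hq =>
      hu q (Finset.mem_insert_of_mem (Finset.mem_union_left _ hq)))
  · exact CH1.cons_preg h6 f' b' hb' hf' hfP' hk huk (hN2 u k huk fun q hq =>
      hu q (Finset.mem_insert_of_mem (Finset.mem_union_right _ hq)))

end Pool.Agent.NOD.S1
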