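import Pool.Agent.NOD.S1
import Pool.Agent.NOD.S1.Basic

/-!
Piece CHA of project NOD, section S1: the chart.
-/

set_option autoImplicit false

namespace Pool.Agent.NOD.S1

open MvPolynomial

/-- `CH1` for two sequences at once -/
def S_CH1B : Prop := ∀ (d : ℕ) (F : A) (zs : Finset (Fin 5 → ℂ)) (P : Ideal A), F.IsHomogeneous d →
  Sing F zs → P.IsPrime → HomId P → F ∈ P → P.height = 2 →
  ∀ (r r' : ℕ) (f : Fin r → A) (f' : Fin r' → A) (b : Fin r → ℕ) (b' : Fin r' → ℕ),
  r ≤ 3 → r' ≤ 3 → (∀ j, 0 < b j) → (∀ j, 0 < b' j) →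
  (∀ j, (f j).IsHomogeneous (b j)) → (∀ j, (f' j).IsHomogeneous (b' j)) → PReg f → PReg f' →
  F ∈ Ideal.span (Set.range f) → F ∈ Ideal.span (Set.range f') →
  ∃ (u g : A) (k n : ℕ), 0 < k ∧ u.IsHomogeneous k ∧ g.IsHomogeneous n ∧ g ∈ P ∧ u ∉ P ∧
    (∀ p ∈ P, u * p ∈ Ideal.span {F, g}) ∧ PReg (Fin.cons u f : Fin (r + 1) → A) ∧
    PReg (Fin.cons u f' : Fin (r' + 1) → A)

theorem not_le_span {F : A} (hF : Prime F) {P : Ideal A} (hP : P.height = 2)
    (h : P ≤ Ideal.span {F}) : False := by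
  have h1 : P.height ≤ (Ideal.span {F}).height := Ideal.height_mono h
  have h2 : (Ideal.span {F}).height ≤ 1 := Ideal.height_span_singleton_le_one hF.not_isUnit
  rw [hP] at h1
  exact absurd (h1.trans h2) (by norm_num)

theorem preg_one {F : A} (hF : F ≠ 0) : PReg ![F] := by
  intro S i hi g hg
  have hS : S = ∅ := by
    rw [Finset.eq_empty_iff_forall_notMem]
    intro j hj
    exact hi (Subsingleton.elim j i ▸ hj)
  subst hS
  simp only [Finset.coe_empty, Set.image_empty, Ideal.span_empty, Ideal.mem_bot] at hg ⊢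
  have h0 : (![F] : Fin 1 → A) i = F := by
    rw [Subsingleton.elim i 0]; rfl
  rw [h0] at hg
  exact (mul_eq_zero.1 hg).resolve_left hF

theorem t_CHAB (h1 : Pool.Agent.NOD.S_IRR) (h2 : S_CH1B) (h3 : S_LNF) (hI : S_INS) :
    Pool.Agent.NOD.S_CHART := by
  intro d F zs P hd hF hs hP hPh hFP hht
  have hpr : Prime F := h1 d F zs hd hF hs
  have hF0 : F ≠ 0 := hpr.ne_zero
  have hdp : 0 < d := by omega
  -- step 0
  obtain ⟨u0, g0, k0, n0, hk0, hu0, hg0, hgP0, huP0, hl0, hr0, -⟩ :=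
    h2 d F zs P hF hs hP hPh hFP hht 1 1 ![F] ![F] (fun _ => d) (fun _ => d) (by norm_num)
      (by norm_num) (fun _ => hdp) (fun _ => hdp)
      (fun j => by rw [Subsingleton.elim j 0]; exact hF)
      (fun j => by rw [Subsingleton.elim j 0]; exact hF) (preg_one hF0) (preg_one hF0)
      (Ideal.subset_span ⟨0, rfl⟩) (Ideal.subset_span ⟨0, rfl⟩)
  have hg0F : ¬ F ∣ g0 := by
    intro hdv
    refine not_le_span hpr hht fun p hp => ?_
    have h4 := hl0 p hp
    have h5 : Ideal.span {F, g0} ≤ Ideal.span {F} := by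
      rw [Ideal.span_le]
      rintro x (rfl | rfl)
      · exact Ideal.subset_span rfl
      · exact Ideal.mem_span_singleton.2 hdv
    have h6 := Ideal.mem_span_singleton.1 (h5 h4)
    rcases hpr.dvd_or_dvd h6 with h | h
    · exact absurd (P.mem_of_dvd h hFP) huP0
    · exact Ideal.mem_span_singleton.2 h
  have hn0 : 0 < n0 := by
    rcases Nat.eq_zero_or_pos n0 with h | h
    · exfalso
      subst h
      have h4 := (totalDegree_eq_zero_iff_eq_C).1 (Nat.le_zero.1 hg0.totalDegree_le)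
      have h5 : coeff 0 g0 ≠ 0 := by
        intro h6
        rw [h6, map_zero] at h4
        exact hg0F (h4 ▸ dvd_zero F)
      have h6 : IsUnit g0 := by
        rw [h4]
        exact (IsUnit.mk0 _ h5).map C
      exact hP.ne_top (Ideal.eq_top_of_isUnit_mem _ hgP0 h6)
    · exact h
  have hrg : PReg ![g0, F] := by
    have h4 : PReg ((![g0, F] : Fin 2 → A) ∘ (0 : Fin 2).succAbove) := by
      have : (![g0, F] : Fin 2 → A) ∘ (0 : Fin 2).succAbove = ![F] := by
        funext i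
        rw [Subsingleton.elim i 0]; rfl
      rw [this]
      exact preg_one hF0
    refine hI 1 ![g0, F] ![n0, d] 0 ?_ ?_ h4 ?_
    · intro i; fin_cases i
      · exact hn0
      · exact hdp
    · intro i; fin_cases i
      · exact hg0
      · exact hF
    · have : (![g0, F] : Fin 2 → A) ∘ (0 : Fin 2).succAbove = ![F] := by
        funext i
        rw [Subsingleton.elim i 0]; rfl
      rw [this]
      have h5 : Set.range (![F] : Fin 1 → A) = {F} := by
        ext y
        simp [eq_comm]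
      rw [h5]
      intro x hx
      have h6 := Ideal.mem_span_singleton.1 hx
      exact Ideal.mem_span_singleton.2 ((hpr.dvd_or_dvd h6).resolve_left hg0F)
  have e0 : (Fin.cons u0 ![F] : Fin 2 → A) = ![u0, F] := rfl
  rw [e0] at hr0
  -- step 1
  obtain ⟨u1, g1, k1, n1, hk1, hu1, hg1, hgP1, huP1, hl1, hr1, hr1'⟩ :=
    h2 d F zs P hF hs hP hPh hFP hht 2 2 ![u0, F] ![g0, F] ![k0, d] ![n0, d] (by norm_num)
      (by norm_num) (by intro i; fin_cases i; exacts [hk0, hdp])
      (by intro i; fin_cases i; exacts [hn0, hdp])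
      (by intro i; fin_cases i; exacts [hu0, hF])
      (by intro i; fin_cases i; exacts [hg0, hF]) hr0 hrg
      (Ideal.subset_span ⟨1, rfl⟩) (Ideal.subset_span ⟨1, rfl⟩)
  have e1 : (Fin.cons u1 ![u0, F] : Fin 3 → A) = ![u1, u0, F] := rfl
  have e1' : (Fin.cons u1 ![g0, F] : Fin 3 → A) = ![u1, g0, F] := rfl
  rw [e1] at hr1
  rw [e1'] at hr1'
  -- step 2
  obtain ⟨u2, g2, k2, n2, hk2, hu2, hg2, hgP2, huP2, hl2, hr2, hr2'⟩ :=
    h2 d F zs P hF hs hP hPh hFP hht 3 3 ![u1, u0, F] ![u1, g0, F] ![k1, k0, d] ![k1, n0, d]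
      (by norm_num) (by norm_num) (by intro i; fin_cases i; exacts [hk1, hk0, hdp])
      (by intro i; fin_cases i; exacts [hk1, hn0, hdp])
      (by intro i; fin_cases i; exacts [hu1, hu0, hF])
      (by intro i; fin_cases i; exacts [hu1, hg0, hF]) hr1 hr1'
      (Ideal.subset_span ⟨2, rfl⟩) (Ideal.subset_span ⟨2, rfl⟩)
  have e2 : (Fin.cons u2 ![u1, u0, F] : Fin 4 → A) = ![u2, u1, u0, F] := rfl
  have e2' : (Fin.cons u2 ![u1, g0, F] : Fin 4 → A) = ![u2, u1, g0, F] := rfl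
  rw [e2] at hr2
  rw [e2'] at hr2'
  -- step 3
  obtain ⟨v, hv, -, -, hvz, hr3⟩ := h3 4 ![u2, u1, u0, F] ![k2, k1, k0, d] (by norm_num)
    (by intro i; fin_cases i; exacts [hk2, hk1, hk0, hdp])
    (by intro i; fin_cases i; exacts [hu2, hu1, hu0, hF]) hr2 ∅ zs (by simp)
    (fun z hz => hs.ne z hz)
  have e3 : (Fin.cons v ![u2, u1, u0, F] : Fin 5 → A) = ![v, u2, u1, u0, F] := rfl
  rw [e3] at hr3
  refine ⟨{ u := ![u0, u1, u2], g := ![g0, g1, g2], del := ![k0, k1, k2], gam := ![n0, n1, n2],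
            v := v, del_pos := ?_, u_hom := ?_, g_hom := ?_, g_mem := ?_, u_not := ?_, loc := ?_,
            v_hom := hv, v_ne := hvz, reg := ?_, reg2 := ?_ }⟩
  · intro i; fin_cases i; exacts [hk0, hk1, hk2]
  · intro i; fin_cases i; exacts [hu0, hu1, hu2]
  · intro i; fin_cases i; exacts [hg0, hg1, hg2]
  · intro i; fin_cases i; exacts [hgP0, hgP1, hgP2]
  · intro i; fin_cases i; exacts [huP0, huP1, huP2]
  · intro i; fin_cases i; exacts [hl0, hl1, hl2]
  · have := hr3.comp (σ := ![4, 3, 2, 1, 0]) (by decide)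
    convert this using 1
    funext i; fin_cases i <;> rfl
  · have := hr2'.comp (σ := ![3, 2, 1, 0]) (by decide)
    convert this using 1
    funext i; fin_cases i <;> rfl

theorem t_CHA (h1 : Pool.Agent.NOD.S_IRR) (h2 : S_CH1) (h3 : S_LNF) (h4 : S_INS) :
    Pool.Agent.NOD.S_CHART :=
  t_CHAB h1 (fun d F zs P a b c e g h r r' f f' bb bb' hr hr' hb hb' hf hf' hp hp' hF hF' =>
    h2 d F zs P a b c e g h r f bb hr hb hf hp hF r' f' bb' hr' hb' hf' hp' hF') h3 h4

end Pool.Agent.NOD.S1
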