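import Pool.Agent.NOD.S1

/-!
# Project NOD, section S1: piece EXC (helper70)
-/

set_option autoImplicit false

namespace Pool.Agent.NOD.S1

open MvPolynomial

section

attribute [local instance] MvPolynomial.gradedAlgebra MvPolynomial.decomposition

lemma hc_mul70 {f : A} {m : ℕ} (hf : f.IsHomogeneous m) (a : A) (k : ℕ) :
    homogeneousComponent (m + k) (f * a) = f * homogeneousComponent k a := by
  have h := DirectSum.coe_decompose_mul_add_of_left_mem (homogeneousSubmodule (Fin 5) ℂ)
    (i := m) (j := k) (a := f) (b := a) ((mem_homogeneousSubmodule m f).2 hf)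
  have e1 := decomposition.decompose'_apply (σ := Fin 5) (R := ℂ) (f * a) (m + k)
  have e2 := decomposition.decompose'_apply (σ := Fin 5) (R := ℂ) a k
  rw [← e1, ← e2]
  exact h

lemma hc_mul_lt70 {f : A} {m : ℕ} (hf : f.IsHomogeneous m) (a : A) {k : ℕ} (hk : k < m) :
    homogeneousComponent k (f * a) = 0 := by
  have h := DirectSum.coe_decompose_mul_of_left_mem_of_not_le (homogeneousSubmodule (Fin 5) ℂ)
    (i := m) (n := k) (a := f) (b := a) ((mem_homogeneousSubmodule m f).2 hf) (not_le.2 hk)
  have e1 := decomposition.decompose'_apply (σ := Fin 5) (R := ℂ) (f * a) k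
  rw [← e1]
  exact h

end

lemma linear_mul_mem70 {J : Ideal A} {y g : A} (hy : y.IsHomogeneous 1)
    (h : ∀ l : Fin 5, X l * g ∈ J) : y * g ∈ J := by
  have h1 : y ∈ Submodule.span ℂ (Set.range (X : Fin 5 → A)) := by
    rw [← homogeneousSubmodule_one_eq_span_X]
    exact (mem_homogeneousSubmodule 1 y).2 hy
  clear hy
  induction h1 using Submodule.span_induction with
  | mem x hx =>
    obtain ⟨l, rfl⟩ := hx
    exact h l
  | zero => rw [zero_mul]; exact J.zero_mem
  | add x z _ _ h1 h2 => rw [add_mul]; exact J.add_mem h1 h2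
  | smul c x _ h1 =>
    rw [smul_mul_assoc, MvPolynomial.smul_eq_C_mul]
    exact J.mul_mem_left _ h1

theorem t_EXC : S_EXC := by
  intro I f y g b i hI hf hy hfb hy1 hgi hX hg
  have h1 := linear_mul_mem70 hy1 hX
  obtain ⟨i₀, hi₀, w, hw, hyg⟩ := Submodule.mem_sup.1 h1
  obtain ⟨h', rfl⟩ := Ideal.mem_span_singleton'.1 hw
  have hyg1 : (y * g).IsHomogeneous (i + 1) := by
    have := hy1.mul hgi
    rwa [add_comm] at this
  have h2 := congrArg (homogeneousComponent (i + 1)) hyg
  rw [map_add, homogeneousComponent_of_mem hyg1, if_pos rfl] at h2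
  by_cases hb : b ≤ i + 1
  · refine ⟨hb, ?_⟩
    obtain ⟨m, hm⟩ := Nat.exists_eq_add_of_le hb
    have hm' : i + 1 - b = m := by omega
    rw [hm, mul_comm h' f, hc_mul70 hfb] at h2
    rw [hm']
    set h := homogeneousComponent m h' with hh
    set j₀ := homogeneousComponent (b + m) i₀ with hj₀
    have hj₀I : j₀ ∈ I := hI _ hi₀ _
    refine ⟨h, homogeneousComponent_isHomogeneous _ _, fun l => ?_, fun hcon => ?_⟩
    · obtain ⟨i₁, hi₁, w, hw, hl⟩ := Submodule.mem_sup.1 (hX l)
      obtain ⟨k, rfl⟩ := Ideal.mem_span_singleton'.1 hw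
      have h3 : X l * h - y * k ∈ I := by
        apply hf
        have : f * (X l * h - y * k) = y * i₁ - X l * j₀ := by
          linear_combination X l * h2 - y * hl
        rw [this]
        exact I.sub_mem (I.mul_mem_left _ hi₁) (I.mul_mem_left _ hj₀I)
      exact Submodule.mem_sup.2 ⟨_, h3, _, Ideal.mem_span_singleton'.2 ⟨k, rfl⟩, by ring⟩
    · obtain ⟨i₁, hi₁, w, hw, hl⟩ := Submodule.mem_sup.1 hcon
      obtain ⟨k, rfl⟩ := Ideal.mem_span_singleton'.1 hw
      apply hg
      have h3 : g - f * k ∈ I := by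
        apply hy
        have : y * (g - f * k) = f * i₁ + j₀ := by
          linear_combination - h2 - f * hl
        rw [this]
        exact I.add_mem (I.mul_mem_left _ hi₁) hj₀I
      exact Submodule.mem_sup.2 ⟨_, h3, _, Ideal.mem_span_singleton'.2 ⟨k, rfl⟩, by ring⟩
  · exfalso
    rw [mul_comm h' f, hc_mul_lt70 hfb h' (by omega), add_zero] at h2
    apply hg
    refine Ideal.mem_sup_left (hy g ?_)
    rw [← h2]
    exact hI _ hi₀ _

end Pool.Agent.NOD.S1
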