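import Pool.Agent.NOD.S1

/-!
# Project NOD, section S1, piece GCH: one form for finitely many primes
-/

set_option autoImplicit false

namespace Pool.Agent.NOD.S1

open MvPolynomial

theorem gch_sep {q q' : Ideal A} (hq' : HomId q') (h : ¬ q' ≤ q) :
    ∃ x : A, x ∈ q' ∧ x ∉ q ∧ ∃ k, x.IsHomogeneous k := by
  obtain ⟨x, hx, hxq⟩ := Set.not_subset.1 h
  by_contra hcon
  push Not at hcon
  apply hxq
  change x ∈ q
  rw [← sum_homogeneousComponent x]
  refine Ideal.sum_mem _ fun k _ => ?_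
  by_contra hk
  exact hcon _ (hq' x hx k) hk k (homogeneousComponent_isHomogeneous k x)

theorem gch_aux (h1 : S_NAK) (h2 : S_LAV) (F : A) (P : Ideal A) : ∀ (n : ℕ) (Q : Finset (Ideal A)),
    Q.card = n →
    (∀ q ∈ Q, q.IsPrime ∧ HomId q ∧ HasM q ∧ ∃ g ∈ P, (∃ n, g.IsHomogeneous n) ∧ ∃ u, u ∉ q ∧
      ∀ p ∈ P, u * p ∈ Ideal.span {F, g}) →
    ∃ g ∈ P, (∃ n, g.IsHomogeneous n) ∧ ∀ q ∈ Q, ∃ u, u ∉ q ∧
      ∀ p ∈ P, u * p ∈ Ideal.span {F, g} := by
  classical
  intro n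
  induction n using Nat.strong_induction_on with
  | _ n ih =>
  intro Q hn hQ
  by_cases hcomp : ∃ q ∈ Q, ∃ q' ∈ Q, q ≠ q' ∧ q ≤ q'
  · obtain ⟨q, hq, q', hq', hne, hle⟩ := hcomp
    have hlt : (Q.erase q).card < n := by
      rw [← hn]; exact Finset.card_erase_lt_of_mem hq
    obtain ⟨g, hgP, hgh, hg⟩ := ih _ hlt (Q.erase q) rfl fun r hr => hQ r (Finset.mem_of_mem_erase hr)
    refine ⟨g, hgP, hgh, fun r hr => ?_⟩
    by_cases hrq : r = q
    · subst hrq
      obtain ⟨u, hu, hu2⟩ := hg q' (Finset.mem_erase.2 ⟨hne.symm, hq'⟩)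
      exact ⟨u, fun hc => hu (hle hc), hu2⟩
    · exact hg r (Finset.mem_erase.2 ⟨hrq, hr⟩)
  · push Not at hcomp
    have hsep : ∀ q q' : Ideal A, ∃ x : A, q ∈ Q → q' ∈ Q → q ≠ q' →
        (x ∈ q' ∧ x ∉ q ∧ ∃ k, x.IsHomogeneous k) := by
      intro q q'
      by_cases hh : q ∈ Q ∧ q' ∈ Q ∧ q ≠ q'
      · obtain ⟨x, hx⟩ := gch_sep (q := q) (hQ q' hh.2.1).2.1 (hcomp q' hh.2.1 q hh.1 hh.2.2.symm)
        exact ⟨x, fun _ _ _ => hx⟩
      · exact ⟨0, fun a b c => absurd ⟨a, b, c⟩ hh⟩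
    choose e he using hsep
    have hdat : ∀ q : Ideal A, ∃ (g u : A) (n : ℕ), q ∈ Q → (g ∈ P ∧ g.IsHomogeneous n ∧ u ∉ q ∧
        ∀ p ∈ P, u * p ∈ Ideal.span {F, g}) := by
      intro q
      by_cases hh : q ∈ Q
      · obtain ⟨-, -, -, g, hgP, ⟨n, hgn⟩, u, hu, hu2⟩ := hQ q hh
        exact ⟨g, u, n, fun _ => ⟨hgP, hgn, hu, hu2⟩⟩
      · exact ⟨0, 0, 0, fun a => absurd a hh⟩
    choose g u nn hdat using hdat
    obtain ⟨y, hy1, hy2, -⟩ := h2 Q ∅ (fun q hq => (hQ q hq).2.2.1) (by simp)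
    have hwh : ∀ q : Ideal A, ∃ m : ℕ, q ∈ Q → (∏ q' ∈ Q.erase q, e q q').IsHomogeneous m := by
      intro q
      by_cases hh : q ∈ Q
      · have h3 : ∀ q' : Ideal A, ∃ k : ℕ, q' ∈ Q.erase q → (e q q').IsHomogeneous k := by
          intro q'
          by_cases h4 : q' ∈ Q.erase q
          · obtain ⟨-, -, k, hk⟩ := he q q' hh (Finset.mem_of_mem_erase h4)
              (Finset.ne_of_mem_erase h4).symm
            exact ⟨k, fun _ => hk⟩
          · exact ⟨0, fun a => absurd a h4⟩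
        choose k hk using h3
        exact ⟨_, fun _ => IsHomogeneous.prod _ _ _ hk⟩
      · exact ⟨0, fun a => absurd a hh⟩
    choose m hm using hwh
    set w : Ideal A → A := fun q => ∏ q' ∈ Q.erase q, e q q' with hwdef
    have hw1 : ∀ q ∈ Q, w q ∉ q := by
      intro q hq hc
      obtain ⟨q', hq', hc'⟩ := (Ideal.IsPrime.prod_mem_iff (hp := (hQ q hq).1)).1 hc
      exact (he q q' hq (Finset.mem_of_mem_erase hq') (Finset.ne_of_mem_erase hq').symm).2.1 hc'
    have hw2 : ∀ q ∈ Q, ∀ q' ∈ Q, q' ≠ q → w q' ∈ q := by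
      intro q hq q' hq' hne
      have h5 : e q' q ∈ q := (he q' q hq' hq hne).1
      exact Ideal.mem_of_dvd q (Finset.dvd_prod_of_mem _ (Finset.mem_erase.2 ⟨hne.symm, hq⟩)) h5
    set D : ℕ := ∑ q ∈ Q, (m q + nn q) with hD
    have hDle : ∀ q ∈ Q, m q + nn q ≤ D := fun q hq =>
      Finset.single_le_sum (f := fun q => m q + nn q) (fun _ _ => Nat.zero_le _) hq
    set c : Ideal A → A := fun q => y ^ (D - (m q + nn q)) * w q with hcdef
    have hc1 : ∀ q ∈ Q, c q ∉ q := by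
      intro q hq hc
      rcases (hQ q hq).1.mem_or_mem hc with h6 | h6
      · exact hy2 q hq ((hQ q hq).1.mem_of_pow_mem _ h6)
      · exact hw1 q hq h6
    have hgP : (∑ q ∈ Q, c q * g q) ∈ P :=
      Ideal.sum_mem _ fun q hq => Ideal.mul_mem_left _ _ (hdat q hq).1
    refine ⟨∑ q ∈ Q, c q * g q, hgP, ⟨D, ?_⟩, ?_⟩
    · refine IsHomogeneous.sum _ _ _ fun q hq => ?_
      have h7 : (c q * g q).IsHomogeneous (1 * (D - (m q + nn q)) + m q + nn q) :=
        ((hy1.pow _).mul (hm q hq)).mul (hdat q hq).2.1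
      have h8 : 1 * (D - (m q + nn q)) + m q + nn q = D := by
        have := hDle q hq
        omega
      rwa [h8] at h7
    · intro q hq
      refine h1 P _ q (c q * u q) (hQ q hq).1 ?_ ?_
      · intro hc
        rcases (hQ q hq).1.mem_or_mem hc with h6 | h6
        · exact hc1 q hq h6
        · exact (hdat q hq).2.2.1 h6
      · intro p hp
        obtain ⟨a, b, hab⟩ := Ideal.mem_span_pair.1 ((hdat q hq).2.2.2 p hp)
        have h9 : ∑ q' ∈ Q, c q' * g q' = c q * g q + ∑ q' ∈ Q.erase q, c q' * g q' :=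
          (Finset.add_sum_erase Q (fun q' => c q' * g q') hq).symm
        have h10 : ∑ q' ∈ Q.erase q, c q' * g q' ∈ q * P := by
          refine Ideal.sum_mem _ fun q' hq' => ?_
          refine Ideal.mul_mem_mul ?_ (hdat q' (Finset.mem_of_mem_erase hq')).1
          exact Ideal.mul_mem_left _ _
            (hw2 q hq q' (Finset.mem_of_mem_erase hq') (Finset.ne_of_mem_erase hq'))
        have h11 : c q * u q * p = (c q * a * F + b * ∑ q' ∈ Q, c q' * g q') +
            (-b) * ∑ q' ∈ Q.erase q, c q' * g q' := by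
          rw [h9]
          calc c q * u q * p = c q * (u q * p) := by ring
            _ = c q * (a * F + b * g q) := by rw [hab]
            _ = _ := by ring
        rw [h11]
        refine Ideal.add_mem _ (Ideal.mem_sup_left ?_) (Ideal.mem_sup_right ?_)
        · exact Ideal.mem_span_pair.2 ⟨c q * a, b, rfl⟩
        · exact Ideal.mul_mem_left _ _ h10

theorem t_GCH (h1 : S_NAK) (h2 : S_LAV) : S_GCH := by
  intro F P Q _ _ _ hQ
  exact gch_aux h1 h2 F P _ Q rfl hQ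

end Pool.Agent.NOD.S1
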