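import Pool.Agent.NOD.S1

/-!
# Project NOD, section S1, piece HTJ
-/

set_option autoImplicit false

namespace Pool.Agent.NOD.S1

open MvPolynomial

theorem HTJP_aev (x : Fin 5 → ℂ) (g : A) : aeval x g = eval x g := by
  rw [← coe_aeval_eq_eval]
  rfl

theorem t_HTJ (h1 : S_HTR) : S_HTJ := by
  classical
  intro F zs hS q hq hpd
  by_cases hex : ∃ z ∈ zs, ∀ ℓ : A, ℓ.IsHomogeneous 1 → eval z ℓ = 0 → ℓ ∈ q
  · obtain ⟨z, hz, hl⟩ := hex
    exact h1.2.2 z q (hS.ne z hz) hq hl
  · push Not at hex
    choose! l hl1 hl2 hl3 using hex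
    have hG : ∏ z ∈ zs, l z ∉ q := by
      intro h
      obtain ⟨z, hz, h'⟩ := Ideal.IsPrime.prod_mem_iff.1 h
      exact hl3 z hz h'
    have hX : ∀ i : Fin 5, X i ∈ q := by
      intro i
      have h2 : X i * ∏ z ∈ zs, l z ∈
          (Ideal.span (Set.range fun i : Fin 5 => pderiv i F)).radical := by
        rw [← vanishingIdeal_zeroLocus_eq_radical (K := ℂ), mem_vanishingIdeal_iff]
        intro x hx
        rw [mem_zeroLocus_iff] at hx
        have hx' : ∀ i, eval x (pderiv i F) = 0 := by
          intro i
          have := hx (pderiv i F) (Ideal.subset_span ⟨i, rfl⟩)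
          rwa [HTJP_aev] at this
        rw [HTJP_aev]
        by_cases hx0 : x = 0
        · rw [hx0, map_mul, eval_X, Pi.zero_apply, zero_mul]
        · obtain ⟨z, hz, c, rfl⟩ := hS.cover x hx0 hx'
          rw [map_mul, map_prod]
          apply mul_eq_zero_of_right
          apply Finset.prod_eq_zero hz
          have h3 : (l z).IsHomogeneous 1 := hl1 z hz
          have h4 : eval (c • z) (l z) = c ^ 1 * eval z (l z) := by
            rw [eval_eq', eval_eq', Finset.mul_sum]
            refine Finset.sum_congr rfl fun d hd => ?_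
            have hdn : ∑ i, d i = 1 := by
              have h1 := h3 (mem_support_iff.1 hd)
              rw [← h1, Finsupp.weight_apply]
              simp [Finsupp.sum_fintype]
            have h2 : ∏ i, (c • z) i ^ d i = c ^ 1 * ∏ i, z i ^ d i := by
              simp only [Pi.smul_apply, smul_eq_mul, mul_pow]
              rw [Finset.prod_mul_distrib, Finset.prod_pow_eq_pow_sum, hdn]
            rw [h2]
            ring
          rw [h4, hl2 z hz, mul_zero]
      have h5 : (Ideal.span (Set.range fun i : Fin 5 => pderiv i F)).radical ≤ q := by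
        rw [hq.radical_le_iff, Ideal.span_le]
        rintro _ ⟨i, rfl⟩
        exact hpd i
      rcases hq.mem_or_mem (h5 h2) with h | h
      · exact h
      · exact absurd h hG
    exact le_trans (by norm_num) (h1.2.1 q hq hX)

end Pool.Agent.NOD.S1
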