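import Pool.Agent.NOD.S1

/-!
# Project NOD, section S1, piece HTR: heights of primes containing regular sequences (helper54)
-/

set_option autoImplicit false

namespace Pool.Agent.NOD.S1

open MvPolynomial

namespace HTR

lemma preg_comp {n m : ℕ} {f : Fin n → A} (hf : PReg f) (σ : Fin m → Fin n)
    (hσ : Function.Injective σ) : PReg (f ∘ σ) := by
  classical
  intro S i hi
  have h := hf (S.image σ) (σ i) (by
    intro h
    obtain ⟨j, hj, hji⟩ := Finset.mem_image.1 h
    exact hi (hσ hji ▸ hj))
  have e : f '' ((S.image σ : Finset (Fin n)) : Set (Fin n)) = (f ∘ σ) '' (S : Set (Fin m)) := by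
    rw [Finset.coe_image, Set.image_comp]
  rw [e] at h
  exact h

/-- minimal primes consist of zero divisors -/
lemma min_colon (I p : Ideal A) (hp : p ∈ I.minimalPrimes) :
    ∃ g : A, g ∉ I ∧ ∀ x ∈ p, x * g ∈ I := by
  have h1 : (Module.annihilator A (A ⧸ I)).minimalPrimes ⊆ associatedPrimes A (A ⧸ I) :=
    Module.associatedPrimes.minimalPrimes_annihilator_subset_associatedPrimes A (A ⧸ I)
  rw [Ideal.annihilator_quotient] at h1
  have h2 := h1 hp
  rw [AssociatedPrimes.mem_iff, isAssociatedPrime_iff] at h2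
  obtain ⟨hpr, x, hx⟩ := h2
  obtain ⟨g, rfl⟩ := Ideal.Quotient.mk_surjective x
  refine ⟨g, ?_, ?_⟩
  · intro hg
    apply hpr.ne_top
    rw [hx, Ideal.eq_top_iff_one, Submodule.mem_colon_singleton,
      Ideal.Quotient.eq_zero_iff_mem.2 hg]
    simp
  · intro y hy
    rw [hx, Submodule.mem_colon_singleton] at hy
    rw [← Ideal.Quotient.eq_zero_iff_mem]
    exact (Submodule.mem_bot A).1 hy

lemma height_ge : ∀ (n : ℕ) (f : Fin n → A), PReg f → ∀ q : Ideal A, q.IsPrime →
    (∀ j, f j ∈ q) → (n : ℕ∞) ≤ q.height := by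
  intro n
  induction n with
  | zero => intro f _ q _ _; simp
  | succ n ih =>
    intro f hf q hq hfq
    have hf' : PReg (f ∘ Fin.castSucc) := preg_comp hf _ (Fin.castSucc_injective n)
    have hle : Ideal.span (Set.range (f ∘ Fin.castSucc)) ≤ q := by
      rw [Ideal.span_le]
      rintro _ ⟨j, rfl⟩
      exact hfq _
    obtain ⟨p, hp, hpq⟩ := Ideal.exists_minimalPrimes_le hle
    have hpp : p.IsPrime := hp.1.1
    have hpI : Ideal.span (Set.range (f ∘ Fin.castSucc)) ≤ p := hp.1.2
    have h1 : (n : ℕ∞) ≤ p.height :=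
      ih _ hf' p hpp fun j => hpI (Ideal.subset_span ⟨j, rfl⟩)
    have h2 : f (Fin.last n) ∉ p := by
      intro hmem
      obtain ⟨g, hg, hgp⟩ := min_colon _ _ hp
      have h3 := hf (Finset.univ.image Fin.castSucc) (Fin.last n) (by
        intro h
        obtain ⟨j, -, hj⟩ := Finset.mem_image.1 h
        exact absurd hj (Fin.castSucc_lt_last j).ne)
      have e : f '' ((Finset.univ.image (Fin.castSucc (n := n)) : Finset (Fin (n + 1))) :
          Set (Fin (n + 1))) = Set.range (f ∘ Fin.castSucc) := by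
        rw [Finset.coe_image, Finset.coe_univ, Set.image_univ, Set.range_comp]
      rw [e] at h3
      exact hg (h3 g (hgp _ hmem))
    have h4 : p < q := lt_of_le_of_ne hpq fun e => h2 (e ▸ hfq _)
    have h5 := Ideal.height_add_one_le_of_lt_of_isPrime h4
    calc ((n + 1 : ℕ) : ℕ∞) = (n : ℕ∞) + 1 := by push_cast; rfl
      _ ≤ p.height + 1 := by gcongr
      _ ≤ q.height := h5

end HTR

theorem t_HTR (h : S_LNP) : S_HTR := by
  obtain ⟨-, hreg, -⟩ := h
  refine ⟨HTR.height_ge, ?_, ?_⟩
  · intro q hq hX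
    have h1 : PReg (fun i : Fin 5 => (X i : A)) :=
      hreg 5 _ (fun j => isHomogeneous_X _ _) (by
        rw [Fintype.linearIndependent_iff]
        intro c hc i
        have := congrArg (eval (Pi.single i (1 : ℂ))) hc
        simpa [map_sum, smul_eval, Pi.single_apply, Finset.sum_ite_eq'] using this)
    exact_mod_cast HTR.height_ge 5 _ h1 q hq hX
  · intro z q hz hq hl
    obtain ⟨i₀, hi₀⟩ : ∃ i, z i ≠ 0 := by
      by_contra h0
      push Not at h0
      exact hz (funext h0)
    let ℓ : Fin 4 → A := fun k => C (z i₀) * X (i₀.succAbove k) - C (z (i₀.succAbove k)) * X i₀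
    have hhom : ∀ k, (ℓ k).IsHomogeneous 1 := by
      intro k
      refine IsHomogeneous.sub ?_ ?_
      · simpa using (isHomogeneous_C (Fin 5) (z i₀)).mul (isHomogeneous_X ℂ (i₀.succAbove k))
      · simpa using (isHomogeneous_C (Fin 5) (z (i₀.succAbove k))).mul (isHomogeneous_X ℂ i₀)
    have hli : LinearIndependent ℂ ℓ := by
      rw [Fintype.linearIndependent_iff]
      intro c hc k
      have h1 := congrArg (eval (Pi.single (i₀.succAbove k) (1 : ℂ))) hc
      have h2 : ∀ j, eval (Pi.single (i₀.succAbove k) (1 : ℂ)) (ℓ j) =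
          if j = k then z i₀ else 0 := by
        intro j
        have h3 : (Pi.single (i₀.succAbove k) (1 : ℂ) : Fin 5 → ℂ) i₀ = 0 := by
          rw [Pi.single_apply, if_neg (Fin.succAbove_ne i₀ k).symm]
        have h4 : (Pi.single (i₀.succAbove k) (1 : ℂ) : Fin 5 → ℂ) (i₀.succAbove j) =
            if j = k then 1 else 0 := by
          rw [Pi.single_apply]
          simp only [Fin.succAbove_right_inj]
        simp only [ℓ, map_sub, map_mul, eval_C, eval_X, h3, h4]
        split_ifs <;> simp
      rw [map_sum, map_zero] at h1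
      simp only [smul_eval, h2] at h1
      simpa [Finset.sum_ite_eq', hi₀] using h1
    have h5 := HTR.height_ge 4 ℓ (hreg 4 ℓ hhom hli) q hq fun k => hl _ (hhom k) (by
      simp [ℓ, mul_comm])
    exact_mod_cast h5

end Pool.Agent.NOD.S1
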