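import Pool.Agent.NOD.S1
import Pool.Agent.NOD.S1.Basic

set_option autoImplicit false

namespace Pool.Agent.NOD.S1

open MvPolynomial

/-- Transposition, second half (graded Nakayama): `a` NZD mod `I`, `c` NZD mod `I + (a)`,
then `c` is NZD mod `I`. -/
theorem nzd_of_sup {I : Ideal A} (hI : HomId I) {a c : A} {α γ : ℕ} (hα : 0 < α)
    (ha : a.IsHomogeneous α) (hc : c.IsHomogeneous γ) (h1 : NZD I a)
    (h2 : NZD (I ⊔ Ideal.span {a}) c) : NZD I c := by
  -- homogeneous case, by induction on the degree
  have key : ∀ (n : ℕ) (x : A), x.IsHomogeneous n → c * x ∈ I → x ∈ I := by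
    intro n
    induction n using Nat.strong_induction_on with
    | _ n ih =>
      intro x hx hcx
      have hx2 : x ∈ I ⊔ Ideal.span {a} := h2 x (Ideal.mem_sup_left hcx)
      rcases hom_mem_sup hI ha hx hx2 with ⟨_, h⟩ | ⟨hn, y, hy, i, hi, e⟩
      · exact h
      · have h3 : a * (c * y) ∈ I := by
          have : a * (c * y) = c * x - c * i := by rw [e]; ring
          rw [this]
          exact Ideal.sub_mem _ hcx (Ideal.mul_mem_left _ _ hi)
        have h4 : y ∈ I := ih (n - α) (by omega) y hy (h1 _ h3)
        rw [e]
        exact Ideal.add_mem _ (Ideal.mul_mem_left _ _ h4) hi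
  intro x hx
  apply mem_of_homComp
  intro n
  apply key n _ (homogeneousComponent_isHomogeneous n x)
  have := hI _ hx (n + γ)
  rwa [homComp_mul_left hc] at this

/-- Transposition, first half: `a` NZD mod `I`, `c` NZD mod `I + (a)`, then `a` is NZD mod
`I + (c)`. -/
theorem nzd_swap {I : Ideal A} {a c : A} (h1 : NZD I a) (h2 : NZD (I ⊔ Ideal.span {a}) c) :
    NZD (I ⊔ Ideal.span {c}) a := by
  intro x hx
  obtain ⟨y, i, hi, e⟩ := mem_sup_span_singleton'.1 hx
  have h3 : y ∈ I ⊔ Ideal.span {a} := by
    apply h2
    rw [mem_sup_span_singleton']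
    exact ⟨x, -i, I.neg_mem hi, by rw [e]; ring⟩
  obtain ⟨z, j, hj, e2⟩ := mem_sup_span_singleton'.1 h3
  have h4 : a * (x - c * z) ∈ I := by
    have : a * (x - c * z) = c * j + i := by
      rw [mul_sub, e, e2]; ring
    rw [this]
    exact I.add_mem (I.mul_mem_left _ hj) hi
  rw [mem_sup_span_singleton']
  exact ⟨z, x - c * z, h1 _ h4, by ring⟩

theorem span_insert_image {n : ℕ} (h : Fin n → A) (S : Finset (Fin n)) (j : Fin n) :
    Ideal.span (h '' ((insert j S : Finset (Fin n)) : Set (Fin n)))
      = Ideal.span (h '' (S : Set (Fin n))) ⊔ Ideal.span {h j} := by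
  rw [Finset.coe_insert, Set.image_insert_eq, Ideal.span_insert, sup_comm]

theorem t_INS : S_INS := by
  classical
  intro n h b j hb hh hreg hj
  have hrange : Set.range (h ∘ j.succAbove) = h '' ((Finset.univ.erase j : Finset (Fin (n+1))) : Set (Fin (n+1))) := by
    ext x
    simp only [Set.mem_range, Function.comp, Set.mem_image, Finset.coe_erase, Finset.coe_univ,
      Set.mem_diff, Set.mem_univ, true_and, Set.mem_singleton_iff]
    constructor
    · rintro ⟨k, rfl⟩
      exact ⟨j.succAbove k, Fin.succAbove_ne j k, rfl⟩
    · rintro ⟨k, hk, rfl⟩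
      obtain ⟨l, rfl⟩ := Fin.exists_succAbove_eq hk
      exact ⟨l, rfl⟩
  -- the part without `j`
  have hA : ∀ (S : Finset (Fin (n+1))) (i : Fin (n+1)), j ∉ S → i ∉ S → i ≠ j →
      NZD (Ideal.span (h '' (S : Set (Fin (n+1))))) (h i) := by
    intro S i hjS hiS hij
    obtain ⟨k, rfl⟩ := Fin.exists_succAbove_eq hij
    have h1 := hreg (S.preimage j.succAbove (Fin.succAbove_right_injective.injOn)) k (by
      simpa using hiS)
    have h2 : (h ∘ j.succAbove) '' ((S.preimage j.succAbove (Fin.succAbove_right_injective.injOn) : Finset (Fin n)) : Set (Fin n))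
        = h '' (S : Set (Fin (n+1))) := by
      rw [Set.image_comp, Finset.coe_preimage, Set.image_preimage_eq_of_subset]
      intro x hx
      have : x ≠ j := by rintro rfl; exact hjS hx
      obtain ⟨l, rfl⟩ := Fin.exists_succAbove_eq this
      exact ⟨l, rfl⟩
    rw [h2] at h1
    exact h1
  -- `h j` modulo any subset of the others, by downward induction
  have hB : ∀ (m : ℕ) (S : Finset (Fin (n+1))), j ∉ S → ((Finset.univ.erase j) \ S).card = m →
      NZD (Ideal.span (h '' (S : Set (Fin (n+1))))) (h j) := by
    intro m
    induction m with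
    | zero =>
      intro S hjS hcard
      have : S = Finset.univ.erase j := by
        rw [Finset.card_eq_zero, Finset.sdiff_eq_empty_iff_subset] at hcard
        apply Finset.Subset.antisymm
        · intro x hx
          rw [Finset.mem_erase]
          exact ⟨fun e => hjS (e ▸ hx), Finset.mem_univ _⟩
        · exact hcard
      rw [this, ← hrange]
      exact hj
    | succ m ih =>
      intro S hjS hcard
      have hne : ((Finset.univ.erase j) \ S).Nonempty := by
        rw [← Finset.card_pos]; omega
      obtain ⟨a, ha⟩ := hne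
      have ha1 : a ≠ j := by
        rw [Finset.mem_sdiff, Finset.mem_erase] at ha
        exact ha.1.1
      have ha2 : a ∉ S := (Finset.mem_sdiff.1 ha).2
      have h1 : NZD (Ideal.span (h '' (S : Set (Fin (n+1))))) (h a) := hA S a hjS ha2 ha1
      have h2 : NZD (Ideal.span (h '' ((insert a S : Finset (Fin (n+1))) : Set (Fin (n+1))))) (h j) := by
        apply ih
        · rw [Finset.mem_insert]
          rintro (h | h)
          · exact ha1 h.symm
          · exact hjS h
        · have : (Finset.univ.erase j) \ (insert a S) = ((Finset.univ.erase j) \ S).erase a := by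
            ext x
            simp only [Finset.mem_sdiff, Finset.mem_erase, Finset.mem_insert, Finset.mem_univ]
            tauto
          rw [this, Finset.card_erase_of_mem ha, hcard]
          rfl
      rw [span_insert_image] at h2
      exact nzd_of_sup (homId_image hh _) (hb a) (hh a) (hh j) h1 h2
  intro S i hi
  by_cases hij : i = j
  · subst hij
    exact hB _ S hi rfl
  · by_cases hjS : j ∈ S
    · -- `S = insert j (S.erase j)`
      have hS : S = insert j (S.erase j) := (Finset.insert_erase hjS).symm
      have hiS : i ∉ S.erase j := fun h => hi (Finset.mem_of_mem_erase h)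
      have hjS' : j ∉ S.erase j := Finset.notMem_erase j S
      have h1 := hA (S.erase j) i hjS' hiS hij
      have h2 := hB _ (insert i (S.erase j)) (by
        rw [Finset.mem_insert]
        rintro (h | h)
        · exact hij h.symm
        · exact hjS' h) rfl
      rw [span_insert_image] at h2
      have h3 := nzd_swap h1 h2
      rw [hS, span_insert_image]
      exact h3
    · exact hA S i hjS hi hij

end Pool.Agent.NOD.S1
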