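import Pool.Agent.NOD.S1

/-!
# Project NOD, section S1, piece JPT
-/

set_option autoImplicit false

namespace Pool.Agent.NOD.S1

open MvPolynomial

namespace JPTP

/-- A matrix with four columns and rank four has a left inverse. -/
theorem left_inv (M : Matrix (Fin 5) (Fin 4) ℂ) (h : 4 ≤ M.rank) :
    ∃ T : Matrix (Fin 4) (Fin 5) ℂ, T * M = 1 := by
  have hker : LinearMap.ker M.mulVecLin = ⊥ := by
    have h1 := LinearMap.finrank_range_add_finrank_ker M.mulVecLin
    rw [Module.finrank_fin_fun] at h1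
    have h2 : 4 ≤ Module.finrank ℂ (LinearMap.range M.mulVecLin) := h
    have h3 : Module.finrank ℂ (LinearMap.ker M.mulVecLin) = 0 := by omega
    exact Submodule.finrank_eq_zero.1 h3
  obtain ⟨g, hg⟩ := LinearMap.exists_leftInverse_of_injective _ hker
  refine ⟨LinearMap.toMatrix' g, ?_⟩
  have h1 : LinearMap.toMatrix' (g ∘ₗ M.mulVecLin) = 1 := by
    rw [hg, LinearMap.toMatrix'_id]
  rw [LinearMap.toMatrix'_comp, ← Matrix.toLin'_apply', LinearMap.toMatrix'_toLin'] at h1
  exact h1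

end JPTP

open JPTP in
theorem t_JPT (h : S5.S_LIN) : S_JPT := by
  intro d F p f n hF hp hz hrank hf hfp
  obtain ⟨i₀, hi₀⟩ : ∃ i, p i ≠ 0 := by
    by_contra hcon
    push Not at hcon
    exact hp (funext hcon)
  obtain ⟨ℓ, hℓ⟩ : ∃ ℓ : Fin 4 → A, ∀ k, ℓ k =
      C (p i₀) * X (i₀.succAbove k) - C (p (i₀.succAbove k)) * X i₀ := ⟨_, fun _ => rfl⟩
  have hℓ0 : ∀ k, eval p (ℓ k) = 0 := by
    intro k
    rw [hℓ]
    simp only [map_sub, map_mul, eval_C, eval_X]
    ring
  have hmem : ∀ (G : A) (k : ℕ), G.IsHomogeneous k → eval p G = 0 →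
      ∃ c : Fin 4 → A, G = ∑ k, c k * ℓ k := by
    intro G k hG hG0
    have h1 := h 5 p i₀ G k hi₀ hG hG0
    rw [Ideal.mem_span_range_iff_exists_fun] at h1
    obtain ⟨c, hc⟩ := h1
    refine ⟨fun k => c (i₀.succAbove k), ?_⟩
    rw [← hc, Fin.sum_univ_succAbove _ i₀, sub_self, mul_zero, zero_add]
    refine Finset.sum_congr rfl fun k _ => ?_
    rw [hℓ]
  obtain ⟨cf, hcf⟩ := hmem f n hf hfp
  have hd : ∀ l : Fin 5, ∃ c : Fin 4 → A, pderiv l F = ∑ k, c k * ℓ k := fun l =>
    hmem (pderiv l F) (d - 1) hF.pderiv (hz l)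
  choose a ha using hd
  -- the Hesse matrix
  have hH : (Matrix.of fun i j : Fin 5 => eval p (pderiv i (pderiv j F))) =
      (Matrix.of fun (i : Fin 5) (k : Fin 4) => eval p (pderiv i (ℓ k))) *
        (Matrix.of fun (j : Fin 5) (k : Fin 4) => eval p (a j k)).transpose := by
    ext i j
    rw [Matrix.mul_apply]
    simp only [Matrix.of_apply, Matrix.transpose_apply]
    rw [ha j, map_sum, map_sum]
    refine Finset.sum_congr rfl fun k _ => ?_
    rw [pderiv_mul, map_add, map_mul, map_mul, hℓ0 k, mul_zero, zero_add]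
    ring
  have hr : 4 ≤ (Matrix.of fun (j : Fin 5) (k : Fin 4) => eval p (a j k)).rank := by
    rw [← Matrix.rank_transpose]
    have h1 := Matrix.rank_mul_le_right
      (Matrix.of fun (i : Fin 5) (k : Fin 4) => eval p (pderiv i (ℓ k)))
      (Matrix.of fun (j : Fin 5) (k : Fin 4) => eval p (a j k)).transpose
    rw [← hH, hrank] at h1
    exact h1
  obtain ⟨T, hT⟩ := left_inv _ hr
  obtain ⟨M, hM⟩ : ∃ M : Matrix (Fin 4) (Fin 4) A, M =
      (T.map C : Matrix (Fin 4) (Fin 5) A) * (Matrix.of a : Matrix (Fin 5) (Fin 4) A) := ⟨_, rfl⟩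
  have hdet : eval p M.det = 1 := by
    rw [RingHom.map_det]
    have : (eval p).mapMatrix M = 1 := by
      rw [← hT]
      ext i j
      rw [RingHom.mapMatrix_apply, Matrix.map_apply, hM, Matrix.mul_apply, Matrix.mul_apply,
        map_sum]
      refine Finset.sum_congr rfl fun k _ => ?_
      simp [Matrix.map_apply]
    rw [this, Matrix.det_one]
  refine ⟨M.det, by rw [hdet]; exact one_ne_zero, ?_⟩
  -- `M ℓ` is in the Jacobian ideal
  have hMl : ∀ i, M.mulVec ℓ i ∈ Ideal.span (Set.range fun i : Fin 5 => pderiv i F) := by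
    intro i
    have e : M.mulVec ℓ i = ∑ j, C (T i j) * pderiv j F := by
      rw [hM, ← Matrix.mulVec_mulVec, Matrix.mulVec, dotProduct]
      refine Finset.sum_congr rfl fun j _ => ?_
      rw [Matrix.map_apply, Matrix.mulVec, dotProduct, ha j]
      rfl
    rw [e]
    exact Ideal.sum_mem _ fun j _ => Ideal.mul_mem_left _ _ (Ideal.subset_span ⟨j, rfl⟩)
  have hwl : ∀ k, M.det * ℓ k ∈ Ideal.span (Set.range fun i : Fin 5 => pderiv i F) := by
    intro k
    have e : M.det * ℓ k = ∑ i, M.adjugate k i * M.mulVec ℓ i := by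
      have h1 : (M.adjugate.mulVec (M.mulVec ℓ)) k = M.det * ℓ k := by
        rw [Matrix.mulVec_mulVec, Matrix.adjugate_mul, Matrix.smul_mulVec, Matrix.one_mulVec]
        rfl
      rw [← h1]
      rfl
    rw [e]
    exact Ideal.sum_mem _ fun i _ => Ideal.mul_mem_left _ _ (hMl i)
  rw [hcf, Finset.mul_sum]
  refine Ideal.sum_mem _ fun k _ => ?_
  have e : M.det * (cf k * ℓ k) = cf k * (M.det * ℓ k) := by ring
  rw [e]
  exact Ideal.mul_mem_left _ _ (hwl k)

end Pool.Agent.NOD.S1
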