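import Pool.Agent.NOD.S1

/-!
# Project NOD, section S1, piece JSA
-/

set_option autoImplicit false

namespace Pool.Agent.NOD.S1

open MvPolynomial

namespace JSAP

theorem eval_smul' (f : A) (n : ℕ) (hf : f.IsHomogeneous n) (c : ℂ) (z : Fin 5 → ℂ) :
    eval (c • z) f = c ^ n * eval z f := by
  rw [eval_eq', eval_eq', Finset.mul_sum]
  refine Finset.sum_congr rfl fun d hd => ?_
  have hdn : ∑ i, d i = n := by
    have h1 := hf (mem_support_iff.1 hd)
    rw [← h1, Finsupp.weight_apply]
    simp [Finsupp.sum_fintype]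
  have h2 : ∏ i, (c • z) i ^ d i = c ^ n * ∏ i, z i ^ d i := by
    simp only [Pi.smul_apply, smul_eq_mul, mul_pow]
    rw [Finset.prod_mul_distrib, Finset.prod_pow_eq_pow_sum, hdn]
  rw [h2]
  ring

theorem rank_smul' (M : Matrix (Fin 5) (Fin 5) ℂ) (c : ℂ) (hc : c ≠ 0) :
    (c • M).rank = M.rank := by
  have h1 : c • M = (Matrix.diagonal fun _ => c) * M := by
    rw [Matrix.smul_eq_diagonal_mul]
  rw [h1]
  apply Matrix.rank_mul_eq_right_of_isUnit_det
  rw [Matrix.det_diagonal]
  exact IsUnit.mk0 _ (by simp [hc])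

end JSAP

open JSAP in
theorem t_JSA (h1 : S_JPT) (h2 : S5.S_NUL) : Pool.Agent.NOD.S_JSAT := by
  intro d F zs v f n hd hF hS hv hvz hf hfz
  obtain ⟨N, hN⟩ := h2 5 (Ideal.span (Set.range fun i : Fin 5 => pderiv i F)) f (by
    intro p hp
    by_cases hall : ∀ i, eval p (pderiv i F) = 0
    · obtain ⟨z, hz, c, rfl⟩ := hS.cover p hp hall
      have hc : c ≠ 0 := by
        rintro rfl
        exact hp (zero_smul _ _)
      apply h1 d F (c • z) f n hF hp hall ?_ hf
      · rw [eval_smul' f n hf, hfz z hz, mul_zero]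
      · have e : (Matrix.of fun i j : Fin 5 => eval (c • z) (pderiv i (pderiv j F))) =
            c ^ (d - 1 - 1) • (Matrix.of fun i j : Fin 5 => eval z (pderiv i (pderiv j F))) := by
          ext i j
          rw [Matrix.smul_apply, Matrix.of_apply, Matrix.of_apply, smul_eq_mul]
          exact eval_smul' _ _ hF.pderiv.pderiv c z
        rw [e, rank_smul' _ _ (pow_ne_zero _ hc)]
        exact hS.node z hz
    · push Not at hall
      obtain ⟨i, hi⟩ := hall
      exact ⟨pderiv i F, hi, Ideal.mul_mem_right _ _ (Ideal.subset_span ⟨i, rfl⟩)⟩)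
  refine ⟨N, hN N le_rfl (v ^ N) ?_⟩
  have := hv.pow N
  rw [one_mul] at this
  exact this

end Pool.Agent.NOD.S1
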