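import Pool.Agent.NOD.S1

/-!
# Project NOD, section S1, piece LAV: linear avoidance
-/

set_option autoImplicit false

namespace Pool.Agent.NOD.S1

open MvPolynomial

theorem t_LAV : S_LAV := by
  intro Q zs hQ hz
  classical
  let L : (Fin 5 → ℂ) →ₗ[ℂ] A := Fintype.linearCombination ℂ (fun i : Fin 5 => (X i : A))
  have hL : ∀ a : Fin 5 → ℂ, L a = ∑ i, a i • (X i : A) := fun a =>
    Fintype.linearCombination_apply ℂ _ a
  let p : ({q // q ∈ Q} ⊕ {z // z ∈ zs}) → Submodule ℂ (Fin 5 → ℂ) := fun j =>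
    Sum.elim (fun q : {q // q ∈ Q} => (q.1.restrictScalars ℂ).comap L)
      (fun z : {z // z ∈ zs} => LinearMap.ker (Fintype.linearCombination ℂ z.1)) j
  have key : ∃ a : Fin 5 → ℂ, ∀ j, a ∉ p j := by
    by_contra hcon
    push Not at hcon
    have hcov : ⋃ j, (p j : Set (Fin 5 → ℂ)) = Set.univ := by
      refine Set.eq_univ_of_forall fun a => ?_
      obtain ⟨j, hj⟩ := hcon a
      exact Set.mem_iUnion.mpr ⟨j, hj⟩
    obtain ⟨j, hj⟩ := Subspace.exists_eq_top_of_iUnion_eq_univ hcov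
    rcases j with ⟨q, hq⟩ | ⟨z, hzz⟩
    · obtain ⟨i, hi⟩ := hQ q hq
      apply hi
      have h1 : (Pi.single i 1 : Fin 5 → ℂ) ∈ p (Sum.inl ⟨q, hq⟩) := by
        rw [hj]; exact Submodule.mem_top
      have h2 : L (Pi.single i 1) ∈ q := h1
      rw [hL] at h2
      have h3 : ∑ k, (Pi.single i 1 : Fin 5 → ℂ) k • (X k : A) = X i := by
        rw [Finset.sum_eq_single i]
        · simp
        · intro b _ hb
          rw [Pi.single_eq_of_ne hb, zero_smul]
        · intro h; exact absurd (Finset.mem_univ i) h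
      rwa [h3] at h2
    · apply hz z hzz
      funext i
      have h1 : (Pi.single i 1 : Fin 5 → ℂ) ∈ p (Sum.inr ⟨z, hzz⟩) := by
        rw [hj]; exact Submodule.mem_top
      have h2 : Fintype.linearCombination ℂ z (Pi.single i 1 : Fin 5 → ℂ) = 0 := h1
      rw [Fintype.linearCombination_apply, Finset.sum_eq_single i] at h2
      · simpa using h2
      · intro b _ hb
        rw [Pi.single_eq_of_ne hb, zero_smul]
      · intro h; exact absurd (Finset.mem_univ i) h
  obtain ⟨a, ha⟩ := key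
  refine ⟨L a, ?_, ?_, ?_⟩
  · rw [hL]
    refine MvPolynomial.IsHomogeneous.sum _ _ _ fun i _ => ?_
    rw [smul_eq_C_mul]
    simpa using (isHomogeneous_C (Fin 5) (a i)).mul (isHomogeneous_X ℂ i)
  · intro q hq hc
    exact ha (Sum.inl ⟨q, hq⟩) hc
  · intro z hzz hc
    apply ha (Sum.inr ⟨z, hzz⟩)
    change Fintype.linearCombination ℂ z a = 0
    rw [Fintype.linearCombination_apply]
    rw [hL, map_sum] at hc
    rw [← hc]
    refine Finset.sum_congr rfl fun i _ => ?_
    rw [smul_eq_C_mul, map_mul, eval_C, eval_X, smul_eq_mul]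

end Pool.Agent.NOD.S1
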