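import Pool.Agent.NOD.S1

/-! NOD S1 piece LC1. -/

set_option autoImplicit false

namespace Pool.Agent.NOD.S1

open IsLocalRing

theorem exists_span_insert {K V : Type*} [Field K] [AddCommGroup V] [Module K V]
    [FiniteDimensional K V] (n : ℕ) (h : Module.finrank K V = n + 1) (v : V) (hv : v ≠ 0) :
    ∃ w : Fin n → V, Submodule.span K (insert v (Set.range w)) = ⊤ := by
  classical
  have h1 : Module.finrank K (V ⧸ Submodule.span K {v}) = n := by
    have := Submodule.finrank_quotient_add_finrank (Submodule.span K {v})
    rw [finrank_span_singleton hv, h] at this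
    omega
  let b := Module.finBasisOfFinrankEq K (V ⧸ Submodule.span K {v}) h1
  choose w hw using fun i => Submodule.Quotient.mk_surjective (Submodule.span K {v}) (b i)
  refine ⟨w, ?_⟩
  rw [Submodule.span_insert, ← Submodule.map_mkQ_eq_top, Submodule.map_span, ← Set.range_comp]
  have : (⇑(Submodule.span K {v}).mkQ ∘ w) = b := by
    funext i
    exact hw i
  rw [this]
  exact b.span_eq

theorem t_LC1 : S_LC1 := by
  intro R _ _ n hd f hf hf2
  classical
  have h1 : Module.finrank (ResidueField R) (CotangentSpace R) = n + 1 := by
    have := (IsRegularLocalRing.iff_finrank_cotangentSpace R).1 inferInstance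
    rw [hd] at this
    exact_mod_cast this
  have hne : (maximalIdeal R).toCotangent ⟨f, hf⟩ ≠ 0 := by
    intro h0
    rw [Ideal.toCotangent_eq_zero] at h0
    exact hf2 h0
  obtain ⟨w, hw⟩ := exists_span_insert (K := ResidueField R) (V := CotangentSpace R) n h1 _ hne
  choose t ht using fun i => (maximalIdeal R).toCotangent_surjective (w i)
  refine ⟨fun i => (t i : R), ?_⟩
  have h2 : ((maximalIdeal R).toCotangent '' (insert ⟨f, hf⟩ (Set.range t))) =
      insert ((maximalIdeal R).toCotangent ⟨f, hf⟩) (Set.range w) := by
    rw [Set.image_insert_eq, ← Set.range_comp]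
    congr 2
    funext i
    exact ht i
  rw [← h2, CotangentSpace.span_image_eq_top_iff] at hw
  have h3 := congrArg (Submodule.map (maximalIdeal R).subtype) hw
  rw [Submodule.map_span, Submodule.map_subtype_top] at h3
  rw [Set.image_insert_eq, ← Set.range_comp] at h3
  exact h3.symm

end Pool.Agent.NOD.S1
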