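import Pool.Agent.NOD.S1

/-!
# Project NOD, section S1, piece LC2 (helper33): prime ideals of a local ring with `m = (f, s, t)`
-/

set_option autoImplicit false
set_option linter.all false

namespace Pool.Agent.NOD.S1

namespace LC2P

open IsLocalRing

variable {R : Type} [CommRing R] [IsLocalRing R] [IsNoetherianRing R]

theorem krull (J : Ideal R) (hJ : J ≤ maximalIdeal R) {y : R} (hy : y ∉ J) :
    ∃ k, y ∉ maximalIdeal R ^ k ⊔ J := by
  by_contra hcon
  push Not at hcon
  have hJt : J ≠ ⊤ := fun h => by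
    rw [h, top_le_iff] at hJ
    exact (Ideal.IsPrime.ne_top inferInstance) hJ
  haveI : Nontrivial (R ⧸ J) := Ideal.Quotient.nontrivial_iff.2 hJt
  haveI : IsLocalRing (R ⧸ J) := IsLocalRing.of_surjective' (Ideal.Quotient.mk J)
    Ideal.Quotient.mk_surjective
  set I := (maximalIdeal R).map (Ideal.Quotient.mk J) with hI
  have hne : I ≠ ⊤ := by
    intro h
    have h1 : (1 : R ⧸ J) ∈ I := by rw [h]; trivial
    rw [← map_one (Ideal.Quotient.mk J), hI, Ideal.mem_quotient_iff_mem_sup, sup_eq_left.2 hJ] at h1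
    exact (maximalIdeal.isMaximal R).ne_top (Ideal.eq_top_iff_one _ |>.2 h1)
  have h2 := Ideal.iInf_pow_eq_bot_of_isLocalRing I hne
  have h3 : Ideal.Quotient.mk J y ∈ ⨅ i, I ^ i := by
    rw [Submodule.mem_iInf]
    intro i
    rw [hI, ← Ideal.map_pow, Ideal.mem_quotient_iff_mem_sup]
    exact hcon i
  rw [h2, Ideal.mem_bot, Ideal.Quotient.eq_zero_iff_mem] at h3
  exact hy h3

theorem pw (J : Ideal R) (t : R) (h : maximalIdeal R ≤ Ideal.span {t} ⊔ J) (k : ℕ) :
    maximalIdeal R ^ k ≤ Ideal.span {t ^ k} ⊔ J := by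
  induction k with
  | zero => simp
  | succ k ih =>
    rw [pow_succ, Ideal.mul_le]
    intro a ha b hb
    obtain ⟨a1, j1, hj1, e1⟩ := Ideal.mem_span_singleton_sup.1 (ih ha)
    obtain ⟨b1, j2, hj2, e2⟩ := Ideal.mem_span_singleton_sup.1 (h hb)
    refine Ideal.mem_span_singleton_sup.2 ⟨a1 * b1, a1 * t ^ k * j2 + j1 * b, ?_, ?_⟩
    · exact J.add_mem (J.mul_mem_left _ hj2) (J.mul_mem_right _ hj1)
    · rw [← e1, ← e2]; ring

theorem ord (J : Ideal R) (hJ : J ≤ maximalIdeal R) (t : R) (ht : t ∈ maximalIdeal R)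
    (h : maximalIdeal R ≤ Ideal.span {t} ⊔ J) {y : R} (hy : y ∉ J) :
    ∃ (l : ℕ) (a : R), IsUnit a ∧ y - a * t ^ l ∈ J := by
  classical
  have hk := krull J hJ hy
  have h1 : Nat.find hk ≠ 0 := by
    intro h0
    have := Nat.find_spec hk
    rw [h0] at this
    apply this
    simp
  obtain ⟨l, hl⟩ := Nat.exists_eq_succ_of_ne_zero h1
  have h2 : y ∈ maximalIdeal R ^ l ⊔ J := by
    have := Nat.find_min hk (m := l) (by omega)
    exact not_not.1 this
  have h3 : y ∉ maximalIdeal R ^ (l + 1) ⊔ J := by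
    have := Nat.find_spec hk
    rwa [hl] at this
  have h4 : y ∈ Ideal.span {t ^ l} ⊔ J := (sup_le (pw J t h l) le_sup_right) h2
  obtain ⟨a, j, hj, e⟩ := Ideal.mem_span_singleton_sup.1 h4
  refine ⟨l, a, ?_, ?_⟩
  · by_contra ha
    apply h3
    rw [← e]
    refine Submodule.add_mem_sup ?_ hj
    rw [pow_succ']
    exact Ideal.mul_mem_mul ((mem_maximalIdeal a).2 ha) (Ideal.pow_mem_pow ht l)
  · rw [← e]; simpa using hj

theorem gen (J P : Ideal R) (hJ : J ≤ maximalIdeal R) (t : R) (ht : t ∈ maximalIdeal R)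
    (h : maximalIdeal R ≤ Ideal.span {t} ⊔ J) : ∃ g ∈ P, P ≤ Ideal.span {g} ⊔ J := by
  classical
  by_cases hP : P ≤ J
  · exact ⟨0, P.zero_mem, hP.trans le_sup_right⟩
  · obtain ⟨y, hyP, hyJ⟩ := Set.not_subset.1 hP
    have hex : ∃ l, ∃ y ∈ P, ∃ a : R, IsUnit a ∧ y - a * t ^ l ∈ J := by
      obtain ⟨l, a, ha, hm⟩ := ord J hJ t ht h hyJ
      exact ⟨l, y, hyP, a, ha, hm⟩
    obtain ⟨g, hg, a, ha, hga⟩ := Nat.find_spec hex
    refine ⟨g, hg, fun x hx => ?_⟩
    by_cases hxJ : x ∈ J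
    · exact (le_sup_right : J ≤ _) hxJ
    · obtain ⟨l, b, hb, hxb⟩ := ord J hJ t ht h hxJ
      have hle : Nat.find hex ≤ l := Nat.find_min' hex ⟨x, hx, b, hb, hxb⟩
      obtain ⟨d, hd⟩ := Nat.exists_eq_add_of_le hle
      obtain ⟨a', ha'⟩ := ha.exists_left_inv
      refine Ideal.mem_span_singleton_sup.2 ⟨b * t ^ d * a',
        (x - b * t ^ l) - b * t ^ d * a' * (g - a * t ^ Nat.find hex), ?_, ?_⟩
      · exact J.sub_mem hxb (J.mul_mem_left _ hga)
      · have : b * t ^ l = b * t ^ d * (a' * a) * t ^ Nat.find hex := by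
          rw [ha', hd, pow_add]; ring
        rw [this]; ring

theorem aux (f s t : R) (P : Ideal R) (hm : maximalIdeal R = Ideal.span {f, s, t})
    (hP : P.IsPrime) (hf : f ∈ P) (hs : s ∉ P) : ∃ g ∈ P, P = Ideal.span {f, g} := by
  have hfm : f ∈ maximalIdeal R := by rw [hm]; exact Ideal.subset_span (by simp)
  have hsm : s ∈ maximalIdeal R := by rw [hm]; exact Ideal.subset_span (by simp)
  have htm : t ∈ maximalIdeal R := by rw [hm]; exact Ideal.subset_span (by simp)
  have hJ : Ideal.span {f, s} ≤ maximalIdeal R := by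
    rw [Ideal.span_le]
    rintro x (rfl | rfl)
    · exact hfm
    · exact hsm
  have hmJ : maximalIdeal R ≤ Ideal.span {t} ⊔ Ideal.span {f, s} := by
    rw [hm, ← Ideal.span_union]
    apply Ideal.span_mono
    intro x hx
    simp only [Set.mem_insert_iff, Set.mem_singleton_iff, Set.mem_union] at hx ⊢
    tauto
  obtain ⟨g, hg, hle⟩ := gen (Ideal.span {f, s}) P hJ t htm hmJ
  refine ⟨g, hg, le_antisymm ?_ ?_⟩
  · have hfg : P.FG := IsNoetherian.noetherian P
    refine Submodule.le_of_le_smul_of_le_jacobson_bot (I := maximalIdeal R) hfg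
      (IsLocalRing.maximalIdeal_le_jacobson ⊥) ?_
    intro x hx
    obtain ⟨a, j, hj, e⟩ := Ideal.mem_span_singleton_sup.1 (hle hx)
    obtain ⟨b, c, e2⟩ := Ideal.mem_span_pair.1 hj
    have hcs : c * s ∈ P := by
      have : c * s = x - a * g - b * f := by rw [← e, ← e2]; ring
      rw [this]
      exact P.sub_mem (P.sub_mem hx (P.mul_mem_left _ hg)) (P.mul_mem_left _ hf)
    have hc : c ∈ P := (hP.mem_or_mem hcs).resolve_right hs
    have hx2 : x = (b * f + a * g) + s * c := by rw [← e, ← e2]; ring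
    rw [hx2]
    refine Submodule.add_mem_sup (Ideal.mem_span_pair.2 ⟨b, a, rfl⟩) ?_
    exact Ideal.mul_mem_mul hsm hc
  · rw [Ideal.span_le]
    rintro x (rfl | rfl)
    · exact hf
    · exact hg

end LC2P

theorem t_LC2 : S_LC2 := by
  intro R _ _ _ f s t P hm hP hf hne
  by_cases hs : s ∈ P
  · have ht : t ∉ P := by
      intro ht
      apply hne
      apply le_antisymm (IsLocalRing.le_maximalIdeal hP.ne_top)
      rw [hm, Ideal.span_le]
      rintro x (rfl | rfl | rfl)
      · exact hf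
      · exact hs
      · exact ht
    refine LC2P.aux f t s P ?_ hP hf ht
    rw [hm]
    congr 1
    ext x
    simp only [Set.mem_insert_iff, Set.mem_singleton_iff]
    tauto
  · exact LC2P.aux f s t P hm hP hf hs

end Pool.Agent.NOD.S1
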