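import Pool.Agent.NOD.S1

/-!
# Project NOD, section S1: piece LC3 (helper70)
-/

set_option autoImplicit false

namespace Pool.Agent.NOD.S1

theorem t_LC3 : S_LC3 := by
  intro R _ _ _ f g P T hP hT hP1
  by_cases h : ∀ t ∈ T, t ∈ Ideal.span {f} ⊔ IsLocalRing.maximalIdeal R • P
  · refine ⟨f, Set.mem_insert _ _, ?_⟩
    have h1 : P ≤ Ideal.span {f} ⊔ IsLocalRing.maximalIdeal R • P := by
      conv_lhs => rw [hT]
      exact Ideal.span_le.2 h
    have h2 : P ≤ Ideal.span {f} :=
      Submodule.le_of_le_smul_of_le_jacobson_bot (IsNoetherian.noetherian P)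
        (IsLocalRing.maximalIdeal_le_jacobson _) h1
    refine le_antisymm ?_ ?_
    · simpa using h2
    · rw [Set.pair_eq_singleton]
      rw [hP]
      exact Ideal.span_mono (by simp)
  · push Not at h
    obtain ⟨t, ht, htn⟩ := h
    refine ⟨t, Set.mem_insert_of_mem _ ht, ?_⟩
    have htP : t ∈ P := by rw [hT]; exact Ideal.subset_span ht
    have hfP : f ∈ P := by rw [hP]; exact Ideal.subset_span (by simp)
    have hgP : g ∈ P := by rw [hP]; exact Ideal.subset_span (by simp)
    have htP' := htP
    rw [hP, Ideal.mem_span_pair] at htP'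
    obtain ⟨a, c, hac⟩ := htP'
    have hc : IsUnit c := by
      by_contra hc
      have hcm : c ∈ IsLocalRing.maximalIdeal R := (IsLocalRing.mem_maximalIdeal c).2 hc
      apply htn
      rw [← hac]
      exact Submodule.add_mem_sup (Ideal.mem_span_singleton'.2 ⟨a, rfl⟩)
        (Submodule.smul_mem_smul hcm hgP)
    obtain ⟨d, hd⟩ := hc.exists_left_inv
    have hg : g ∈ Ideal.span {f, t} := by
      rw [Ideal.mem_span_pair]
      refine ⟨- d * a, d, ?_⟩
      rw [← hac]
      linear_combination g * hd
    refine le_antisymm ?_ ?_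
    · rw [hP, Ideal.span_le]
      rintro x (rfl | rfl)
      · exact Ideal.subset_span (by simp)
      · exact hg
    · rw [Ideal.span_le]
      rintro x (rfl | rfl)
      · exact hfP
      · exact htP

end Pool.Agent.NOD.S1
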