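import Pool.Agent.NOD.S1

/-! Piece LC4 of project NOD, section S1. -/

set_option autoImplicit false

namespace Pool.Agent.NOD.S1

open MvPolynomial

theorem t_LC4 : S_LC4 := by
  intro F q _ i hF hD hmem
  rw [← Localization.AtPrime.map_eq_maximalIdeal, ← Ideal.map_pow,
    IsLocalization.mem_map_algebraMap_iff q.primeCompl] at hmem
  obtain ⟨⟨x, u⟩, hxu⟩ := hmem
  rw [← map_mul] at hxu
  have hinj : Function.Injective (algebraMap A (Localization.AtPrime q)) :=
    IsLocalization.injective _ q.primeCompl_le_nonZeroDivisors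
  have h1 : F * (u : A) = (x : A) := hinj hxu
  have h2 : ∀ y ∈ q ^ 2, pderiv i y ∈ q := by
    intro y hy
    rw [sq] at hy
    refine Submodule.mul_induction_on hy ?_ ?_
    · intro a ha b hb
      rw [Derivation.leibniz]
      exact q.add_mem (q.mul_mem_right _ ha) (q.mul_mem_right _ hb)
    · intro a b ha hb
      rw [map_add]
      exact q.add_mem ha hb
  have h3 := h2 x x.2
  rw [← h1, Derivation.leibniz, smul_eq_mul, smul_eq_mul] at h3
  have h4 : (u : A) * pderiv i F ∈ q := by
    have h5 := q.sub_mem h3 (q.mul_mem_right (pderiv i (u : A)) hF)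
    rwa [add_sub_cancel_left] at h5
  rcases (inferInstance : q.IsPrime).mem_or_mem h4 with h | h
  · exact u.2 h
  · exact hD h

end Pool.Agent.NOD.S1
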