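import Pool.Agent.NOD.S1
import Pool.Agent.NOD.S1.Basic

/-!
Piece LNF of project NOD, section S1.
-/

set_option autoImplicit false

namespace Pool.Agent.NOD.S1

open MvPolynomial

theorem t_LNF (h1 : S_SOG) (h2 : S_LRG) (h3 : S_INS) : S_LNF := by
  intro r f b hr hb hf hP Q zs hQ hz
  have hH : HomId (Ideal.span (Set.range f)) := by
    apply homId_span
    rintro _ ⟨j, rfl⟩
    exact ⟨b j, hf j⟩
  obtain ⟨y, hy, hN, hyQ, hyz⟩ := h2 (Ideal.span (Set.range f)) hH (fun g k hg hl => by
    by_contra hcon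
    have := (h1 r f b k g (by omega) hb hf hP hg hl hcon).1
    omega) Q zs hQ hz
  have hc : (Fin.cons y f : Fin (r + 1) → A) ∘ (0 : Fin (r + 1)).succAbove = f := by
    funext i
    simp
  refine ⟨y, hy, hN, hyQ, hyz, h3 r (Fin.cons y f) (Fin.cons 1 b) 0 ?_ ?_ ?_ ?_⟩
  · intro i
    refine Fin.cases ?_ (fun i => ?_) i
    · simp
    · simpa using hb i
  · intro i
    refine Fin.cases ?_ (fun i => ?_) i
    · simpa using hy
    · simpa using hf i
  · rw [hc]; exact hP
  · rw [hc]
    simpa using hN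

end Pool.Agent.NOD.S1
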