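import Pool.Agent.NOD.S1

/-!
# NOD, section S1, piece LNP: ideals generated by linear forms
-/

set_option autoImplicit false

namespace Pool.Agent.NOD.S1

open MvPolynomial

/-- the retraction of the polynomial ring onto a complement of a space of linear forms -/
theorem lnp_phi (T : Set A) (hT : ∀ t ∈ T, t.IsHomogeneous 1) :
    ∃ φ : A →ₐ[ℂ] A, RingHom.ker φ.toRingHom = Ideal.span T ∧
      ∀ l : A, l.IsHomogeneous 1 → φ l = 0 → l ∈ Submodule.span ℂ T := by
  set V : Submodule ℂ A := Submodule.span ℂ T with hV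
  obtain ⟨W, hW⟩ := Submodule.exists_isCompl V
  set ψ : A →ₗ[ℂ] A := LinearMap.id - V.subtype ∘ₗ V.projectionOnto W hW with hψ
  have h1 : ∀ v ∈ V, ψ v = 0 := by
    intro v hv
    have : (V.projectionOnto W hW) v = ⟨v, hv⟩ := Submodule.projectionOnto_apply_left hW ⟨v, hv⟩
    simp only [hψ, LinearMap.sub_apply, LinearMap.id_apply, LinearMap.comp_apply,
      Submodule.subtype_apply]
    rw [this, sub_self]
  have h2 : ∀ x : A, x - ψ x ∈ V := by
    intro x
    simp only [hψ, LinearMap.sub_apply, LinearMap.id_apply, LinearMap.comp_apply,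
      Submodule.subtype_apply, sub_sub_cancel]
    exact Submodule.coe_mem _
  set φ : A →ₐ[ℂ] A := aeval (fun i => ψ (X i)) with hφ
  have h3 : ∀ l : A, l.IsHomogeneous 1 → φ l = ψ l := by
    intro l hl
    have hl' : l ∈ homogeneousSubmodule (Fin 5) ℂ 1 := hl
    rw [homogeneousSubmodule_one_eq_span_X] at hl'
    have : homogeneousSubmodule (Fin 5) ℂ 1 ≤ LinearMap.eqLocus φ.toLinearMap ψ := by
      rw [homogeneousSubmodule_one_eq_span_X, Submodule.span_le]
      rintro _ ⟨i, rfl⟩
      simp [hφ, LinearMap.mem_eqLocus]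
    exact this hl
  have h4 : V.carrier ⊆ Ideal.span T := by
    have : V ≤ (Ideal.span T).restrictScalars ℂ := by
      rw [hV, Submodule.span_le]
      exact Ideal.subset_span
    exact this
  have h5 : ∀ g : A, g - φ g ∈ Ideal.span T := by
    intro g
    have e : (Ideal.Quotient.mkₐ ℂ (Ideal.span T)) =
        (Ideal.Quotient.mkₐ ℂ (Ideal.span T)).comp φ := by
      apply MvPolynomial.algHom_ext
      intro i
      rw [AlgHom.comp_apply, hφ, aeval_X]
      exact (Ideal.Quotient.eq).2 (h4 (h2 (X i)))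
    have := congrArg (fun F : A →ₐ[ℂ] (A ⧸ Ideal.span T) => F g) e
    exact (Ideal.Quotient.eq).1 this
  refine ⟨φ, le_antisymm ?_ ?_, ?_⟩
  · intro g hg
    have hg' : φ g = 0 := hg
    have := h5 g
    rwa [hg', sub_zero] at this
  · rw [Ideal.span_le]
    intro t ht
    change φ t = 0
    rw [h3 t (hT t ht)]
    exact h1 t (Submodule.subset_span ht)
  · intro l hl h0
    rw [h3 l hl] at h0
    have := h2 l
    rwa [h0, sub_zero] at this

/-- a linear form in the ideal generated by linear forms -/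
theorem lnp_mem (T : Set A) (hT : ∀ t ∈ T, t.IsHomogeneous 1) (l : A) (hl : l.IsHomogeneous 1)
    (h : l ∈ Ideal.span T) : l ∈ Submodule.span ℂ T := by
  obtain ⟨φ, h1, h2⟩ := lnp_phi T hT
  apply h2 l hl
  rw [← h1] at h
  exact h

theorem lnp_prime (T : Set A) (hT : ∀ t ∈ T, t.IsHomogeneous 1) : (Ideal.span T).IsPrime := by
  obtain ⟨φ, h1, -⟩ := lnp_phi T hT
  rw [← h1]
  exact RingHom.ker_isPrime _

/-- **LNP** -/
theorem t_LNP : S_LNP := by
  refine ⟨lnp_prime, fun n f hf hi S i hiS g hg => ?_, fun r f hf hX => ?_⟩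
  · have hT : ∀ t ∈ f '' (S : Set (Fin n)), t.IsHomogeneous 1 := by
      rintro _ ⟨j, -, rfl⟩
      exact hf j
    refine ((lnp_prime _ hT).mem_or_mem hg).resolve_left fun h => ?_
    have h1 := lnp_mem _ hT _ (hf i) h
    exact hi.notMem_span_image (s := (S : Set (Fin n))) (by exact_mod_cast hiS) h1
  · have hT : ∀ t ∈ Set.range f, t.IsHomogeneous 1 := by
      rintro _ ⟨j, rfl⟩
      exact hf j
    have h1 : ∀ l : Fin 5, (X l : A) ∈ Submodule.span ℂ (Set.range f) := fun l =>
      lnp_mem _ hT _ (isHomogeneous_X ℂ l) (hX l)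
    set V : Submodule ℂ A := Submodule.span ℂ (Set.range f) with hV
    have h2 : Module.finrank ℂ V ≤ r := by
      have := finrank_range_le_card (R := ℂ) f
      simpa [Set.finrank] using this
    have : FiniteDimensional ℂ V := FiniteDimensional.span_of_finite ℂ (Set.finite_range f)
    have h3 : LinearIndependent ℂ (fun l : Fin 5 => (⟨X l, h1 l⟩ : V)) := by
      apply LinearIndependent.of_comp V.subtype
      exact linearIndependent_X (Fin 5) ℂ
    have h4 := h3.fintype_card_le_finrank
    simp only [Fintype.card_fin] at h4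
    omega

end Pool.Agent.NOD.S1
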