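import Pool.Agent.NOD.S1

/-! Piece LOC of project NOD, section S1. -/

set_option autoImplicit false

namespace Pool.Agent.NOD.S1

open MvPolynomial

/-- Components of a multiple of a form. -/
theorem loc_comp (h : A) (n : ℕ) (hh : h.IsHomogeneous n) (a : A) (m : ℕ) :
    homogeneousComponent m (a * h) =
      if n ≤ m then homogeneousComponent (m - n) a * h else 0 := by
  conv_lhs => rw [← sum_homogeneousComponent a, Finset.sum_mul, map_sum]
  have h1 : ∀ k, homogeneousComponent m (homogeneousComponent k a * h) =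
      if m = k + n then homogeneousComponent k a * h else 0 := fun k =>
    homogeneousComponent_of_mem ((homogeneousComponent_isHomogeneous k a).mul hh)
  simp only [h1]
  split_ifs with hnm
  · rw [Finset.sum_eq_single (m - n)]
    · rw [if_pos (by omega)]
    · intro k _ hk
      rw [if_neg (by omega)]
    · intro hk
      rw [if_pos (by omega)]
      rw [homogeneousComponent_eq_zero, zero_mul]
      rw [Finset.mem_range] at hk
      omega
  · refine Finset.sum_eq_zero fun k _ => ?_
    rw [if_neg (by omega)]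

/-- The ideal of two forms is homogeneous. -/
theorem loc_hom2 (F g : A) (d n : ℕ) (hF : F.IsHomogeneous d) (hg : g.IsHomogeneous n) :
    HomId (Ideal.span {F, g}) := by
  intro f hf m
  rw [Ideal.mem_span_pair] at hf
  obtain ⟨a, b, rfl⟩ := hf
  rw [map_add, loc_comp F d hF a m, loc_comp g n hg b m]
  refine Ideal.add_mem _ ?_ ?_
  · split_ifs
    · exact Ideal.mul_mem_left _ _ (Ideal.subset_span (by simp))
    · exact Ideal.zero_mem _
  · split_ifs
    · exact Ideal.mul_mem_left _ _ (Ideal.subset_span (by simp))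
    · exact Ideal.zero_mem _

/-- Membership can be tested on components. -/
theorem loc_mem {I : Ideal A} {f : A} (h : ∀ n, homogeneousComponent n f ∈ I) : f ∈ I := by
  rw [← sum_homogeneousComponent f]
  exact Ideal.sum_mem _ fun n _ => h n

theorem t_LOC (h1 : S_HTJ) (h2 : S_LC1) (h3 : S_LC2) (h4 : S_LC3) (h5 : S_LC4) : S_LOC := by
  intro d F zs P q hF hS hP hPh hFP hP2 hq hqh hFq hq3
  by_cases hcase : ∃ p ∈ P, (∃ n, p.IsHomogeneous n) ∧ p ∉ q
  · obtain ⟨p, hpP, hpn, hpq⟩ := hcase
    refine ⟨p, hpP, hpn, p, hpn, hpq, fun p' _ => ?_⟩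
    exact Ideal.mul_mem_right _ _ (Ideal.subset_span (by simp))
  push Not at hcase
  have hPq : P ≤ q := by
    intro p hp
    exact loc_mem fun n => hcase _ (hPh p hp n) ⟨n, homogeneousComponent_isHomogeneous n p⟩
  -- the local ring
  let R := Localization.AtPrime q
  let φ : A →+* R := algebraMap A R
  have hinj : Function.Injective φ :=
    IsLocalization.injective _ q.primeCompl_le_nonZeroDivisors
  have hdim : ringKrullDim R = q.height := IsLocalization.AtPrime.ringKrullDim_eq_height q R
  obtain ⟨i, hi⟩ : ∃ i : Fin 5, pderiv i F ∉ q := by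
    by_contra hc
    push Not at hc
    have h6 := h1 F zs hS q hq hc
    have h7 := h6.trans hq3
    norm_num at h7
  have hF2 : φ F ∉ IsLocalRing.maximalIdeal R ^ 2 := h5 F q i hFq hi
  have hmax : Ideal.map φ q = IsLocalRing.maximalIdeal R :=
    Localization.AtPrime.map_eq_maximalIdeal
  have hF1 : φ F ∈ IsLocalRing.maximalIdeal R := by
    rw [← hmax]
    exact Ideal.mem_map_of_mem _ hFq
  have hq2 : (2 : ℕ∞) ≤ q.height := by
    rw [← hP2]
    exact Ideal.height_mono hPq
  -- the key: the extension of P is generated by F and one more element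
  have key : ∃ g : R, Ideal.map φ P = Ideal.span {φ F, g} := by
    by_cases hPq' : P = q
    · have hdim2 : ringKrullDim R = ((1 + 1 : ℕ) : WithBot ℕ∞) := by
        rw [hdim, ← hPq', hP2]
        rfl
      obtain ⟨s, hs⟩ := h2 R 1 hdim2 (φ F) hF1 hF2
      refine ⟨s 0, ?_⟩
      rw [hPq', hmax, hs]
      congr 2
      ext x
      simp [Set.mem_range, Fin.exists_fin_one, eq_comm]
    · have hlt : P < q := lt_of_le_of_ne hPq hPq'
      have h6 : P.height + 1 ≤ q.height := Ideal.height_add_one_le_of_lt_of_isPrime hlt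
      have h7 : q.height = 3 := by
        refine le_antisymm hq3 ?_
        rw [hP2] at h6
        exact h6
      have hdim3 : ringKrullDim R = ((2 + 1 : ℕ) : WithBot ℕ∞) := by
        rw [hdim, h7]
        rfl
      obtain ⟨s, hs⟩ := h2 R 2 hdim3 (φ F) hF1 hF2
      have hdisj : Disjoint (q.primeCompl : Set A) (P : Set A) := by
        rw [Set.disjoint_left]
        intro x hx hxP
        exact hx (hPq hxP)
      have hprime : (Ideal.map φ P).IsPrime :=
        IsLocalization.isPrime_of_isPrime_disjoint q.primeCompl R P hP hdisj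
      have hne : Ideal.map φ P ≠ IsLocalRing.maximalIdeal R := by
        intro hc
        have h8 : Ideal.comap φ (Ideal.map φ P) = P :=
          IsLocalization.under_map_of_isPrime_disjoint q.primeCompl R hP hdisj
        have h9 : Ideal.comap φ (IsLocalRing.maximalIdeal R) = q :=
          IsLocalization.AtPrime.under_maximalIdeal R q
        rw [hc, h9] at h8
        exact hPq' h8.symm
      have hs' : IsLocalRing.maximalIdeal R = Ideal.span {φ F, s 0, s 1} := by
        rw [hs]
        congr 2
        ext x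
        simp [Set.mem_range, Fin.exists_fin_two, eq_comm]
      obtain ⟨g, _, hg⟩ := h3 R (φ F) (s 0) (s 1) (Ideal.map φ P) hs' hprime
        (Ideal.mem_map_of_mem _ hFP) hne
      exact ⟨g, hg⟩
  obtain ⟨g', hg'⟩ := key
  -- the second generator can be a form
  have hT : Ideal.map φ P =
      Ideal.span {x : R | ∃ p ∈ P, (∃ n, p.IsHomogeneous n) ∧ x = φ p} := by
    refine le_antisymm ?_ ?_
    · rw [Ideal.map_le_iff_le_comap]
      intro p hp
      rw [Ideal.mem_comap, ← sum_homogeneousComponent p, map_sum]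
      refine Ideal.sum_mem _ fun n _ => Ideal.subset_span ?_
      exact ⟨_, hPh p hp n, ⟨n, homogeneousComponent_isHomogeneous n p⟩, rfl⟩
    · rw [Ideal.span_le]
      rintro x ⟨p, hp, _, rfl⟩
      exact Ideal.mem_map_of_mem _ hp
  have htop : Ideal.map φ P ≠ ⊤ := by
    intro hc
    have h6 : Ideal.map φ P ≤ IsLocalRing.maximalIdeal R := by
      rw [← hmax]
      exact Ideal.map_mono hPq
    rw [hc, top_le_iff] at h6
    exact (IsLocalRing.maximalIdeal.isMaximal R).ne_top h6
  obtain ⟨t, ht, htP⟩ := h4 R (φ F) g' (Ideal.map φ P) _ hg' hT htop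
  obtain ⟨g, hgP, ⟨n, hgn⟩, rfl⟩ : ∃ g ∈ P, (∃ n, g.IsHomogeneous n) ∧ t = φ g := by
    rcases ht with rfl | ⟨p, hp, hn, rfl⟩
    · exact ⟨F, hFP, ⟨d, hF⟩, rfl⟩
    · exact ⟨p, hp, hn, rfl⟩
  have hmap : Ideal.map φ P = Ideal.map φ (Ideal.span {F, g}) := by
    rw [htP, Ideal.map_span, Set.image_pair]
  -- clear denominators
  have hden : ∀ p ∈ P, ∃ s : A, s ∉ q ∧ s * p ∈ Ideal.span {F, g} := by
    intro p hp
    have h6 : φ p ∈ Ideal.map φ (Ideal.span {F, g}) := hmap ▸ Ideal.mem_map_of_mem _ hp
    rw [IsLocalization.mem_map_algebraMap_iff q.primeCompl] at h6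
    obtain ⟨⟨x, s⟩, hxs⟩ := h6
    have h7 : φ (p * (s : A)) = φ (x : A) := by
      rw [map_mul]
      exact hxs
    have h8 : p * (s : A) = (x : A) := hinj h7
    refine ⟨s, s.2, ?_⟩
    rw [mul_comm, h8]
    exact x.2
  choose! s hs using hden
  obtain ⟨S, hSP⟩ := (isNoetherianRing_iff_ideal_fg A).1 inferInstance P
  have hsub : ∀ x ∈ S, x ∈ P := fun x hx => hSP ▸ Ideal.subset_span (Finset.mem_coe.2 hx)
  have hu : ∏ x ∈ S, s x ∉ q := by
    rw [Ideal.IsPrime.prod_mem_iff]
    rintro ⟨x, hx, hxq⟩
    exact (hs x (hsub x hx)).1 hxq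
  have huP : ∀ p ∈ P, (∏ x ∈ S, s x) * p ∈ Ideal.span {F, g} := by
    intro p hp
    rw [← hSP] at hp
    refine Submodule.span_induction (p := fun p _ => (∏ x ∈ S, s x) * p ∈ Ideal.span {F, g})
      ?_ ?_ ?_ ?_ hp
    · intro x hx
      rw [← Finset.prod_erase_mul S s (Finset.mem_coe.1 hx), mul_assoc]
      exact Ideal.mul_mem_left _ _ (hs x (hsub x (Finset.mem_coe.1 hx))).2
    · rw [mul_zero]
      exact Ideal.zero_mem _
    · intro x y _ _ hx hy
      rw [mul_add]
      exact Ideal.add_mem _ hx hy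
    · intro a x _ hx
      rw [smul_eq_mul, mul_left_comm]
      exact Ideal.mul_mem_left _ _ hx
  generalize ∏ x ∈ S, s x = u at hu huP
  obtain ⟨k, hk⟩ : ∃ k, homogeneousComponent k u ∉ q := by
    by_contra hc
    push Not at hc
    exact hu (loc_mem hc)
  refine ⟨g, hgP, ⟨n, hgn⟩, homogeneousComponent k u,
    ⟨k, homogeneousComponent_isHomogeneous k u⟩, hk, fun p hp => ?_⟩
  rw [← sum_homogeneousComponent p, Finset.mul_sum]
  refine Ideal.sum_mem _ fun m _ => ?_
  have h6 := loc_hom2 F g d n hF hgn _ (huP _ (hPh p hp m)) (k + m)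
  rw [loc_comp _ m (homogeneousComponent_isHomogeneous m p) u (k + m),
    if_pos (Nat.le_add_left _ _), Nat.add_sub_cancel] at h6
  exact h6

end Pool.Agent.NOD.S1
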