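import Pool.Agent.NOD.S1

/-!
# Project NOD, section S1, piece LRG: linear nonzerodivisors
-/

set_option autoImplicit false

namespace Pool.Agent.NOD.S1

open MvPolynomial

theorem lrg_hc (l : Fin 5) (g : A) (k : ℕ) :
    homogeneousComponent (k + 1) (X l * g) = X l * homogeneousComponent k g := by
  have h1 : ∀ i, homogeneousComponent (k + 1) (X l * homogeneousComponent i g) =
      if i = k then X l * homogeneousComponent i g else 0 := by
    intro i
    have hh : (X l * homogeneousComponent i g : A).IsHomogeneous (1 + i) :=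
      (isHomogeneous_X ℂ l).mul (homogeneousComponent_isHomogeneous i g)
    rw [homogeneousComponent_of_mem ((mem_homogeneousSubmodule _ _).2 hh)]
    by_cases h : i = k
    · rw [if_pos (by omega), if_pos h]
    · rw [if_neg (by omega), if_neg h]
  calc homogeneousComponent (k + 1) (X l * g)
      = homogeneousComponent (k + 1)
          (X l * ∑ i ∈ Finset.range (g.totalDegree + 1), homogeneousComponent i g) := by
        rw [sum_homogeneousComponent g]
    _ = ∑ i ∈ Finset.range (g.totalDegree + 1),
          (if i = k then X l * homogeneousComponent i g else 0) := by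
        rw [Finset.mul_sum, map_sum]
        exact Finset.sum_congr rfl fun i _ => h1 i
    _ = X l * homogeneousComponent k g := by
        rw [Finset.sum_ite_eq']
        split_ifs with h
        · rfl
        · rw [homogeneousComponent_eq_zero k g (by
            rw [Finset.mem_range] at h; omega), mul_zero]

theorem t_LRG (h : S_LAV) : S_LRG := by
  intro I hI hsoc Q zs hQ hz
  classical
  have hfin : (associatedPrimes A (A ⧸ I)).Finite := associatedPrimes.finite A (A ⧸ I)
  have hap : ∀ q ∈ associatedPrimes A (A ⧸ I), HasM q := by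
    intro q hq
    rw [AssociatedPrimes.mem_iff, isAssociatedPrime_iff] at hq
    obtain ⟨hqp, x, hx⟩ := hq
    obtain ⟨g, rfl⟩ := Ideal.Quotient.mk_surjective x
    have hmem : ∀ a : A, a ∈ q ↔ a * g ∈ I := by
      intro a
      rw [hx, Submodule.mem_colon_singleton, Submodule.mem_bot, ← Ideal.Quotient.eq_zero_iff_mem]
      rfl
    by_contra hcon
    unfold HasM at hcon
    push Not at hcon
    have hg : g ∈ I := by
      rw [← sum_homogeneousComponent g]
      refine Ideal.sum_mem _ fun k _ => ?_
      refine hsoc _ k (homogeneousComponent_isHomogeneous k g) fun l => ?_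
      rw [← lrg_hc]
      exact hI _ ((hmem _).1 (hcon l)) _
    have h1 : (1 : A) ∈ q := (hmem 1).2 (by rwa [one_mul])
    exact hqp.ne_top ((Ideal.eq_top_iff_one q).2 h1)
  obtain ⟨y, hy1, hy2, hy3⟩ := h (hfin.toFinset ∪ Q) zs (by
    intro q hq
    rcases Finset.mem_union.1 hq with h1 | h1
    · exact hap q (hfin.mem_toFinset.1 h1)
    · exact hQ q h1) hz
  refine ⟨y, hy1, ?_, fun q hq => hy2 q (Finset.mem_union_right _ hq), hy3⟩
  intro g hg
  by_contra hgI
  have hx : (Ideal.Quotient.mk I g) ≠ 0 := fun h0 => hgI (Ideal.Quotient.eq_zero_iff_mem.1 h0)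
  obtain ⟨q, hq, hle⟩ := exists_le_isAssociatedPrime_of_isNoetherianRing A
    (Ideal.Quotient.mk I g) hx
  refine hy2 q (Finset.mem_union_left _ (hfin.mem_toFinset.2 hq)) (hle ?_)
  rw [Submodule.mem_colon_singleton, Submodule.mem_bot]
  exact Ideal.Quotient.eq_zero_iff_mem.2 hg

end Pool.Agent.NOD.S1
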