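import Pool.Agent.NOD.S1

/-!
# Project NOD, section S1, piece NAK: Nakayama at a prime
-/

set_option autoImplicit false

namespace Pool.Agent.NOD.S1

open MvPolynomial

theorem t_NAK : S_NAK := by
  intro P J q s hq hs h
  classical
  let N : Submodule A (A ⧸ J) := Submodule.map (Submodule.mkQ J) P
  have hfin : Module.Finite A N := inferInstance
  let f : Module.End A N := algebraMap A (Module.End A N) s
  have hrange : LinearMap.range f ≤ q • (⊤ : Submodule A N) := by
    rintro _ ⟨⟨m, hm⟩, rfl⟩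
    rw [Submodule.mem_smul_top_iff]
    obtain ⟨p, hp, rfl⟩ := hm
    obtain ⟨j, hj, x, hx, hjx⟩ := Submodule.mem_sup.1 (h p hp)
    have e1 : ((f ⟨Submodule.mkQ J p, ⟨p, hp, rfl⟩⟩ : N) : A ⧸ J) = Submodule.mkQ J (s * p) := rfl
    rw [e1, ← hjx, map_add]
    have e2 : Submodule.mkQ J j = 0 := (Submodule.Quotient.mk_eq_zero J).2 hj
    rw [e2, zero_add]
    have e3 : q • N = Submodule.map (Submodule.mkQ J) (q • P) := by
      rw [Submodule.map_smul'']
    rw [e3]
    exact ⟨x, hx, rfl⟩
  obtain ⟨p, hp1, -, hp2, hp3⟩ :=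
    LinearMap.exists_monic_and_natDegree_eq_and_coeff_mem_pow_and_aeval_eq_zero A f q hrange
  refine ⟨p.eval s, ?_, ?_⟩
  · intro hc
    apply hs
    have h1 : p.eval s = (∑ i ∈ Finset.range p.natDegree, p.coeff i * s ^ i) + s ^ p.natDegree := by
      rw [Polynomial.eval_eq_sum_range, Finset.sum_range_succ, hp1.coeff_natDegree, one_mul]
    have h2 : (∑ i ∈ Finset.range p.natDegree, p.coeff i * s ^ i) ∈ q := by
      refine Ideal.sum_mem _ fun i hi => Ideal.mul_mem_right _ _ ?_
      have h3 := hp2 i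
      rw [Finset.mem_range] at hi
      exact Ideal.pow_le_self (by omega) h3
    rw [h1] at hc
    exact hq.mem_of_pow_mem _ ((Ideal.add_mem_iff_right q h2).1 hc)
  · intro x hx
    have h1 : Polynomial.aeval f p = algebraMap A (Module.End A N) (p.eval s) := by
      have := Polynomial.aeval_algebraMap_apply (Module.End A N) s p
      rw [Polynomial.coe_aeval_eq_eval] at this
      exact this
    rw [h1] at hp3
    have h2 := congrArg (fun F : Module.End A N => ((F ⟨Submodule.mkQ J x, ⟨x, hx, rfl⟩⟩ : N) : A ⧸ J)) hp3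
    have h3 : Submodule.mkQ J (p.eval s * x) = 0 := h2
    exact (Submodule.Quotient.mk_eq_zero J).1 h3

end Pool.Agent.NOD.S1
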