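import Pool.Agent.NOD.S1

/-!
# Piece NOF: Noether forms
-/

set_option autoImplicit false

namespace Pool.Agent.NOD.S1

open MvPolynomial

namespace NOF

theorem preg_comp {n m : ℕ} {f : Fin n → A} (hf : PReg f) (σ : Fin m → Fin n)
    (hσ : Function.Injective σ) : PReg (f ∘ σ) := by
  intro S i hi
  have h1 := hf (S.image σ) (σ i) (by
    rw [Finset.mem_image]
    rintro ⟨j, hj, hji⟩
    exact hi (hσ hji ▸ hj))
  rw [Finset.coe_image, ← Set.image_comp] at h1
  exact h1

end NOF

open NOF in
theorem t_NOF (h1 : S_LNF) (h2 : S_HTR) : Pool.Agent.NOD.S_NF := by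
  intro d k F w P hd hk hF hw hFw hP hh
  have hM : HasM P := by
    by_contra hcon
    unfold HasM at hcon
    push Not at hcon
    have h3 := h2.2.1 P hP hcon
    rw [hh] at h3
    exact absurd h3 (by decide)
  obtain ⟨y0, a1, -, a2, -, a3⟩ := h1 2 ![F, w] ![d, k] (by norm_num)
    (by intro j; fin_cases j <;> assumption) (by intro j; fin_cases j <;> assumption) hFw {P} ∅
    (by intro q hq; rw [Finset.mem_singleton] at hq; rw [hq]; exact hM) (by simp)
  obtain ⟨y1, b1, -, -, -, b3⟩ := h1 3 (Fin.cons y0 ![F, w]) (Fin.cons 1 ![d, k]) (by norm_num)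
    (by intro j; fin_cases j <;> first | exact one_pos | assumption)
    (by intro j; fin_cases j <;> assumption) a3 ∅ ∅ (by simp) (by simp)
  obtain ⟨y2, c1, -, -, -, c3⟩ := h1 4 (Fin.cons y1 (Fin.cons y0 ![F, w]))
    (Fin.cons 1 (Fin.cons 1 ![d, k])) (by norm_num)
    (by intro j; fin_cases j <;> first | exact one_pos | assumption)
    (by intro j; fin_cases j <;> assumption) b3 ∅ ∅ (by simp) (by simp)
  refine ⟨![y0, y1, y2], ?_, a2 P (by simp), ?_⟩
  · intro i
    fin_cases i <;> assumption
  · have h3 := preg_comp c3 ![3, 4, 2, 1, 0] (by decide)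
    convert h3 using 1
    funext i
    fin_cases i <;> rfl

end Pool.Agent.NOD.S1
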