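import Pool.Agent.NOD.S1

/-!
# Project NOD, section S1: piece POW (helper70)
-/

set_option autoImplicit false

namespace Pool.Agent.NOD.S1

open MvPolynomial

lemma NZD_pow70 {I : Ideal A} {f : A} (h : NZD I f) (k : ℕ) : NZD I (f ^ k) := by
  induction k with
  | zero => intro g hg; rwa [pow_zero, one_mul] at hg
  | succ k ih =>
    intro g hg
    rw [pow_succ, mul_assoc] at hg
    exact h _ (ih _ hg)

lemma NZD_sup_pow70 {I : Ideal A} {a c : A} (ha : NZD I a) (hc : NZD (I ⊔ Ideal.span {a}) c)
    (k : ℕ) : NZD (I ⊔ Ideal.span {a ^ k}) c := by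
  induction k with
  | zero =>
    intro g _
    rw [pow_zero, Ideal.span_singleton_one, sup_top_eq]
    exact Submodule.mem_top
  | succ k ih =>
    intro x hx
    obtain ⟨i₂, hi₂, w, hw, hxw⟩ := Submodule.mem_sup.1 hx
    obtain ⟨y, rfl⟩ := Ideal.mem_span_singleton'.1 hw
    have h1 : x ∈ I ⊔ Ideal.span {a} := by
      apply hc
      rw [← hxw]
      refine Submodule.mem_sup.2 ⟨i₂, hi₂, _, ?_, rfl⟩
      exact Ideal.mem_span_singleton'.2 ⟨y * a ^ k, by ring⟩
    obtain ⟨i₁, hi₁, w', hw', hxw'⟩ := Submodule.mem_sup.1 h1
    obtain ⟨x', rfl⟩ := Ideal.mem_span_singleton'.1 hw'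
    have h2 : c * x' - a ^ k * y ∈ I := by
      apply ha
      have : a * (c * x' - a ^ k * y) = i₂ - c * i₁ := by
        rw [← hxw'] at hxw
        linear_combination - hxw
      rw [this]
      exact I.sub_mem hi₂ (I.mul_mem_left _ hi₁)
    have h3 : x' ∈ I ⊔ Ideal.span {a ^ k} := by
      apply ih
      refine Submodule.mem_sup.2 ⟨_, h2, _, Ideal.mem_span_singleton'.2 ⟨y, rfl⟩, by ring⟩
    obtain ⟨i₃, hi₃, w'', hw'', hx'⟩ := Submodule.mem_sup.1 h3
    obtain ⟨z, rfl⟩ := Ideal.mem_span_singleton'.1 hw''
    refine Submodule.mem_sup.2 ⟨i₁ + a * i₃, I.add_mem hi₁ (I.mul_mem_left _ hi₃), _,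
      Ideal.mem_span_singleton'.2 ⟨z, rfl⟩, ?_⟩
    rw [← hxw', ← hx']
    ring

lemma PReg_update70 {n : ℕ} {f : Fin n → A} (h : PReg f) (j : Fin n) (k : ℕ) :
    PReg (Function.update f j (f j ^ k)) := by
  classical
  intro S i hi
  by_cases hj : j ∈ S
  · have hij : i ≠ j := fun h' => hi (h' ▸ hj)
    rw [Function.update_of_ne hij]
    have e1 : Function.update f j (f j ^ k) '' (S : Set (Fin n)) =
        insert (f j ^ k) (f '' ((S.erase j : Finset (Fin n)) : Set (Fin n))) := by
      ext x
      constructor
      · rintro ⟨l, hl, rfl⟩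
        by_cases hlj : l = j
        · subst hlj
          rw [Function.update_self]
          exact Or.inl rfl
        · rw [Function.update_of_ne hlj]
          exact Or.inr ⟨l, by simpa using ⟨hl, hlj⟩, rfl⟩
      · rintro (rfl | ⟨l, hl, rfl⟩)
        · exact ⟨j, hj, Function.update_self _ _ _⟩
        · have hl' : l ∈ S ∧ l ≠ j := by simpa using hl
          exact ⟨l, hl'.1, Function.update_of_ne hl'.2 _ _⟩
    have e2 : f '' (S : Set (Fin n)) =
        insert (f j) (f '' ((S.erase j : Finset (Fin n)) : Set (Fin n))) := by
      rw [← Set.image_insert_eq]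
      congr 1
      rw [← Finset.coe_insert, Finset.insert_erase hj]
    have h1 := h (S.erase j) j (Finset.notMem_erase j S)
    have h2 := h S i hi
    rw [e2, Ideal.span_insert, sup_comm] at h2
    rw [e1, Ideal.span_insert, sup_comm]
    exact NZD_sup_pow70 h1 h2 k
  · have e1 : Function.update f j (f j ^ k) '' (S : Set (Fin n)) = f '' (S : Set (Fin n)) := by
      apply Set.image_congr
      intro l hl
      have hlj : l ≠ j := by
        rintro rfl
        exact hj hl
      exact Function.update_of_ne hlj _ _
    rw [e1]
    by_cases hij : i = j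
    · subst hij
      rw [Function.update_self]
      exact NZD_pow70 (h S i hi) k
    · rw [Function.update_of_ne hij]
      exact h S i hi

theorem t_POW : Pool.Agent.NOD.S_POW := by
  classical
  intro n f a hf
  have key : ∀ T : Finset (Fin n), PReg (fun i => if i ∈ T then f i ^ a i else f i) := by
    intro T
    induction T using Finset.induction_on with
    | empty => simpa using hf
    | insert j T hj ih =>
      have h := PReg_update70 ih j (a j)
      have e : Function.update (fun i => if i ∈ T then f i ^ a i else f i) j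
          ((fun i => if i ∈ T then f i ^ a i else f i) j ^ a j) =
          (fun i => if i ∈ insert j T then f i ^ a i else f i) := by
        funext i
        by_cases hij : i = j
        · subst hij
          rw [Function.update_self]
          simp [hj]
        · rw [Function.update_of_ne hij]
          simp [hij]
      rw [e] at h
      exact h
  have := key Finset.univ
  simpa using this

end Pool.Agent.NOD.S1
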