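import Pool.Agent.NOD.S1

/-!
# Project NOD, section S1, piece SOG (helper33): socle degrees of complete intersections
-/

set_option autoImplicit false
set_option linter.all false

namespace Pool.Agent.NOD.S1

open MvPolynomial

namespace SOGP

theorem preg_comp {n m : ℕ} {f : Fin m → A} (h : PReg f) (φ : Fin n → Fin m)
    (hφ : Function.Injective φ) : PReg (f ∘ φ) := by
  classical
  intro S i hi
  have h1 := h (S.image φ) (φ i) (by
    intro h2
    obtain ⟨x, hx, e⟩ := Finset.mem_image.1 h2
    exact hi (hφ e ▸ hx))
  rw [Finset.coe_image, ← Set.image_comp] at h1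
  exact h1

theorem homId_span (s : Set A) (hs : ∀ x ∈ s, ∃ n, x.IsHomogeneous n) :
    HomId (Ideal.span s) := by
  letI : GradedAlgebra (homogeneousSubmodule (Fin 5) ℂ) := MvPolynomial.gradedAlgebra
  have h := Ideal.homogeneous_span (homogeneousSubmodule (Fin 5) ℂ) s (fun x hx => by
    obtain ⟨n, hn⟩ := hs x hx
    exact ⟨n, (mem_homogeneousSubmodule n x).2 hn⟩)
  intro f hf n
  have h2 := h n hf
  have h3 : ((DirectSum.decompose (homogeneousSubmodule (Fin 5) ℂ) f n : A)) =
      homogeneousComponent n f := MvPolynomial.decomposition.decompose'_apply f n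
  rwa [h3] at h2

theorem range_succAbove {r : ℕ} (f : Fin (r + 1) → A) (j : Fin (r + 1)) :
    Ideal.span (Set.range f) = Ideal.span (Set.range (f ∘ j.succAbove)) ⊔ Ideal.span {f j} := by
  rw [← Ideal.span_union]
  congr 1
  ext x
  simp only [Set.mem_range, Set.mem_union, Set.mem_singleton_iff, Function.comp]
  constructor
  · rintro ⟨k, rfl⟩
    by_cases hk : k = j
    · right; rw [hk]
    · left
      obtain ⟨k', hk'⟩ := Fin.exists_succAbove_eq hk
      exact ⟨k', by rw [hk']⟩
  · rintro (⟨k, rfl⟩ | rfl)
    · exact ⟨_, rfl⟩
    · exact ⟨_, rfl⟩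

theorem preg_nzd {r : ℕ} {f : Fin (r + 1) → A} (h : PReg f) (j : Fin (r + 1)) :
    NZD (Ideal.span (Set.range (f ∘ j.succAbove))) (f j) := by
  have h1 := h (Finset.univ.erase j) j (by simp)
  have h2 : f '' ((Finset.univ.erase j : Finset (Fin (r + 1))) : Set (Fin (r + 1))) =
      Set.range (f ∘ j.succAbove) := by
    rw [Set.range_comp, Fin.range_succAbove]
    congr 1
    ext x
    simp
  rwa [h2] at h1

theorem update_succAbove {r : ℕ} {α : Type*} (f : Fin (r + 1) → α) (j : Fin (r + 1)) (y : α) :
    Function.update f j y ∘ j.succAbove = f ∘ j.succAbove := by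
  ext1 k
  simp [Function.update_of_ne (Fin.succAbove_ne j k)]

theorem mem_X {g : A} {i : ℕ} (hg : g.IsHomogeneous i) (hi : 0 < i) :
    g ∈ Ideal.span (Set.range (X : Fin 5 → A)) := by
  rw [← Set.image_univ, mem_ideal_span_X_image]
  intro m hm
  by_contra hcon
  push Not at hcon
  have h1 : m = 0 := by
    ext l
    exact hcon l (Set.mem_univ _)
  have h2 := hg (mem_support_iff.1 hm)
  rw [h1] at h2
  simp at h2
  omega

end SOGP

theorem t_SOG (h1 : S_INS) (h2 : S_LNP) (h3 : S_LRG) (h4 : S_EXC) : S_SOG := by
  have key : ∀ (c r : ℕ) (f : Fin r → A) (b : Fin r → ℕ) (i : ℕ) (g : A),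
      (∑ j, if b j ≠ 1 then 1 else 0) = c → r ≤ 5 →
      (∀ j, 0 < b j) → (∀ j, (f j).IsHomogeneous (b j)) → PReg f → g.IsHomogeneous i →
      (∀ l : Fin 5, X l * g ∈ Ideal.span (Set.range f)) → g ∉ Ideal.span (Set.range f) →
      r = 5 ∧ i = ∑ j, (b j - 1) := by
    intro c
    induction c with
    | zero =>
      intro r f b i g hc hr hb hf hP hg hX hgn
      have hb1 : ∀ j, b j = 1 := by
        intro j
        by_contra hj
        have := (Finset.sum_eq_zero_iff.1 hc) j (Finset.mem_univ j)
        simp [hj] at this
      have hf1 : ∀ j, (f j).IsHomogeneous 1 := fun j => by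
        have := hf j
        rwa [hb1 j] at this
      have hprime := h2.1 (Set.range f) (by rintro _ ⟨j, rfl⟩; exact hf1 j)
      have hXm : ∀ l : Fin 5, X l ∈ Ideal.span (Set.range f) := fun l =>
        (hprime.mem_or_mem (hX l)).resolve_right hgn
      have h5 := h2.2.2 r f hf1 hXm
      refine ⟨le_antisymm hr h5, ?_⟩
      have hi : i = 0 := by
        by_contra hi
        apply hgn
        have h6 := SOGP.mem_X hg (Nat.pos_of_ne_zero hi)
        have h7 : Ideal.span (Set.range (X : Fin 5 → A)) ≤ Ideal.span (Set.range f) := by
          rw [Ideal.span_le]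
          rintro _ ⟨l, rfl⟩
          exact hXm l
        exact h7 h6
      rw [hi]
      symm
      apply Finset.sum_eq_zero
      intro j _
      simp [hb1 j]
    | succ c ih =>
      intro r f b i g hc hr hb hf hP hg hX hgn
      obtain ⟨j, hj⟩ : ∃ j, b j ≠ 1 := by
        by_contra hcon
        push Not at hcon
        have : (∑ j, if b j ≠ 1 then 1 else 0) = 0 :=
          Finset.sum_eq_zero fun j _ => by simp [hcon j]
        omega
      obtain ⟨r, rfl⟩ : ∃ r', r = r' + 1 := by
        rcases r with _ | r
        · exact j.elim0
        · exact ⟨r, rfl⟩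
      rw [Fin.sum_univ_succAbove _ j, if_pos hj] at hc
      set I := Ideal.span (Set.range (f ∘ j.succAbove)) with hI
      have hcomp : PReg (f ∘ j.succAbove) := SOGP.preg_comp hP _ Fin.succAbove_right_injective
      have hHI : HomId I := SOGP.homId_span _ (by rintro _ ⟨k, rfl⟩; exact ⟨_, hf _⟩)
      have hsoc : ∀ (g : A) (k : ℕ), g.IsHomogeneous k → (∀ l : Fin 5, X l * g ∈ I) → g ∈ I := by
        intro g' k hg' hX'
        by_contra hn
        have := (ih r (f ∘ j.succAbove) (b ∘ j.succAbove) k g' (by
          simp only [Function.comp]; omega) (by omega) (fun _ => hb _) (fun _ => hf _) hcomp hg'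
          hX' hn).1
        omega
      obtain ⟨y, hy1, hy, -, -⟩ := h3 I hHI hsoc ∅ ∅ (by simp) (by simp)
      have hfj := SOGP.preg_nzd hP j
      rw [SOGP.range_succAbove f j] at hX hgn
      obtain ⟨hle, h, hh, hhX, hhn⟩ := h4 I (f j) y g (b j) i hHI hfj hy (hf j) hy1 hg hX hgn
      have hups := SOGP.update_succAbove f j y
      have hupb := SOGP.update_succAbove b j 1
      have hP' : PReg (Function.update f j y) := by
        refine h1 r (Function.update f j y) (Function.update b j 1) j ?_ ?_ ?_ ?_
        · intro k
          by_cases hk : k = j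
          · subst hk; simp
          · rw [Function.update_of_ne hk]; exact hb k
        · intro k
          by_cases hk : k = j
          · subst hk; simpa using hy1
          · rw [Function.update_of_ne hk, Function.update_of_ne hk]; exact hf k
        · rw [hups]; exact hcomp
        · rw [hups, Function.update_self]; exact hy
      have hspan : Ideal.span (Set.range (Function.update f j y)) = I ⊔ Ideal.span {y} := by
        rw [SOGP.range_succAbove (Function.update f j y) j, hups, Function.update_self]
      have hupb' : ∀ k, Function.update b j 1 (j.succAbove k) = b (j.succAbove k) :=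
        fun k => congrFun hupb k
      obtain ⟨hr5, hsum⟩ := ih (r + 1) (Function.update f j y) (Function.update b j 1)
        (i + 1 - b j) h (by
          rw [Fin.sum_univ_succAbove _ j]
          simp only [Function.update_self, hupb']
          simp only [ne_eq, not_true_eq_false, if_false, zero_add]
          simp only [ne_eq] at hc
          omega) hr (by
          intro k
          by_cases hk : k = j
          · subst hk; simp
          · rw [Function.update_of_ne hk]; exact hb k) (by
          intro k
          by_cases hk : k = j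
          · subst hk; simpa using hy1
          · rw [Function.update_of_ne hk, Function.update_of_ne hk]; exact hf k) hP' hh (by
          rw [hspan]; exact hhX) (by rw [hspan]; exact hhn)
      refine ⟨hr5, ?_⟩
      rw [Fin.sum_univ_succAbove _ j] at hsum ⊢
      simp only [Function.update_self, hupb'] at hsum
      have := hb j
      omega
  intro r f b i g hr hb hf hP hg hX hgn
  exact key _ r f b i g rfl hr hb hf hP hg hX hgn

end Pool.Agent.NOD.S1
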