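import Pool.Agent.NOD.S1

/-!
# NOD, section S1, piece UNM: unmixedness
-/

set_option autoImplicit false

namespace Pool.Agent.NOD.S1

open MvPolynomial

attribute [local instance] MvPolynomial.gradedAlgebra

/-- the component of a product with a form -/
theorem unm_comp_mul (a x : A) (k n : ℕ) (ha : a.IsHomogeneous k) :
    homogeneousComponent n (a * x) = if k ≤ n then a * homogeneousComponent (n - k) x else 0 := by
  have h := DirectSum.coe_decompose_mul_of_left_mem (𝒜 := homogeneousSubmodule (Fin 5) ℂ)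
    (i := k) (a := a) (b := x) n ha
  have e : ∀ (y : A) (m : ℕ), (DirectSum.decompose (homogeneousSubmodule (Fin 5) ℂ) y m : A) =
      homogeneousComponent m y := fun y m => decomposition.decompose'_apply y m
  rw [e, e] at h
  exact h

theorem unm_homId_of {I : Ideal A} (h : I.IsHomogeneous (homogeneousSubmodule (Fin 5) ℂ)) :
    HomId I := fun _ hf n => homogeneousComponent_mem_of_mem h hf n

theorem unm_isHom_of {I : Ideal A} (h : HomId I) :
    I.IsHomogeneous (homogeneousSubmodule (Fin 5) ℂ) := by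
  intro n f hf
  have := h f hf n
  rw [← decomposition.decompose'_apply] at this
  exact this

theorem unm_sum_mem {I : Ideal A} {f : A} (h : ∀ n, homogeneousComponent n f ∈ I) : f ∈ I := by
  rw [← sum_homogeneousComponent f]
  exact Ideal.sum_mem _ fun i _ => h i

/-- the ideal of a family of forms is homogeneous -/
theorem unm_homId_span {r : ℕ} {f : Fin r → A} {b : Fin r → ℕ}
    (hf : ∀ j, (f j).IsHomogeneous (b j)) : HomId (Ideal.span (Set.range f)) := by
  apply unm_homId_of
  apply Ideal.homogeneous_span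
  rintro _ ⟨j, rfl⟩
  exact ⟨b j, hf j⟩

/-- homogeneous core -/
theorem unm_core {P : Ideal A} (hP : P.IsPrime) : ∃ q : Ideal A, q.IsPrime ∧ HomId q ∧ q ≤ P ∧
    (∀ q' : Ideal A, HomId q' → q' ≤ P → q' ≤ q) ∧
    ∀ (y : A) (n : ℕ), y.IsHomogeneous n → y ∈ P → y ∈ q := by
  refine ⟨(P.homogeneousCore (homogeneousSubmodule (Fin 5) ℂ)).toIdeal,
    hP.homogeneousCore, unm_homId_of (HomogeneousIdeal.isHomogeneous _),
    Ideal.toIdeal_homogeneousCore_le _ _, fun q' h1 h2 f hf => ?_, fun y n hy hyP => ?_⟩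
  · apply unm_sum_mem
    intro n
    exact Ideal.mem_homogeneousCore_of_homogeneous_of_mem
      ⟨n, homogeneousComponent_mem n f⟩ (h2 (h1 f hf n))
  · exact Ideal.mem_homogeneousCore_of_homogeneous_of_mem ⟨n, hy⟩ hyP

/-- an associated prime -/
theorem unm_ass {J : Ideal A} {x : A} (hx : x ∉ J) : ∃ (P : Ideal A) (x₁ : A), P.IsPrime ∧
    x₁ ∉ J ∧ (∀ a ∈ P, a * x₁ ∈ J) ∧ ∀ a : A, a * x ∈ J → a ∈ P := by
  have h1 : (Ideal.Quotient.mk J x : A ⧸ J) ≠ 0 := by
    rwa [Ne, Ideal.Quotient.eq_zero_iff_mem]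
  obtain ⟨P, hP, hle⟩ := exists_le_isAssociatedPrime_of_isNoetherianRing A
    (Ideal.Quotient.mk J x : A ⧸ J) h1
  rw [isAssociatedPrime_iff] at hP
  obtain ⟨hP1, z, hz⟩ := hP
  obtain ⟨x₁, rfl⟩ := Ideal.Quotient.mk_surjective z
  have h2 : ∀ a : A, a ∈ P ↔ a * x₁ ∈ J := by
    intro a
    rw [hz, Submodule.mem_colon_singleton, Submodule.mem_bot]
    change Ideal.Quotient.mk J (a * x₁) = 0 ↔ _
    rw [Ideal.Quotient.eq_zero_iff_mem]
  refine ⟨P, x₁, hP1, fun h => ?_, fun a ha => (h2 a).1 ha, fun a ha => hle ?_⟩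
  · exact hP1.ne_top ((Ideal.eq_top_iff_one _).2 ((h2 1).2 (by rwa [one_mul])))
  · rw [Submodule.mem_colon_singleton, Submodule.mem_bot]
    change Ideal.Quotient.mk J (a * x) = 0
    rw [Ideal.Quotient.eq_zero_iff_mem]
    exact ha

/-- an element killed by `q` modulo `I` and nonzero modulo `I + (y)` -/
theorem unm_elem {I q : Ideal A} {y g : A} (hI : HomId I) (hq : HomId q)
    (hy : y.IsHomogeneous 1) (hyI : NZD I y) (hg : ∀ a ∈ q, a * g ∈ I) (hgI : g ∉ I) :
    ∃ x : A, (∀ a ∈ q, a * x ∈ I) ∧ x ∉ I ⊔ Ideal.span {y} := by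
  by_contra hcon
  push Not at hcon
  -- components
  have hcomp : ∀ x : A, (∀ a ∈ q, a * x ∈ I) → ∀ n, ∀ a ∈ q, a * homogeneousComponent n x ∈ I := by
    intro x hx n a ha
    rw [← sum_homogeneousComponent a, Finset.sum_mul]
    refine Ideal.sum_mem _ fun k _ => ?_
    have h1 := hI _ (hx _ (hq a ha k)) (n + k)
    rw [unm_comp_mul _ _ k _ (homogeneousComponent_isHomogeneous k a), if_pos (by omega)] at h1
    rwa [Nat.add_sub_cancel] at h1
  have key : ∀ (k : ℕ) (x : A), x.IsHomogeneous k → (∀ a ∈ q, a * x ∈ I) → x ∈ I := by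
    intro k
    induction k with
    | zero =>
      intro x hx0 hx
      obtain ⟨i, hi, z, hz, rfl⟩ := Submodule.mem_sup.1 (hcon x hx)
      obtain ⟨c, rfl⟩ := Ideal.mem_span_singleton'.1 hz
      have h1 := homogeneousComponent_eq_self hx0
      rw [map_add, mul_comm c y, unm_comp_mul _ _ 1 _ hy, if_neg (by omega), add_zero] at h1
      rw [mul_comm c y, ← h1]
      exact hI i hi 0
    | succ k ih =>
      intro x hx0 hx
      obtain ⟨i, hi, z, hz, rfl⟩ := Submodule.mem_sup.1 (hcon x hx)
      obtain ⟨c, rfl⟩ := Ideal.mem_span_singleton'.1 hz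
      have hc : ∀ a ∈ q, a * c ∈ I := by
        intro a ha
        apply hyI
        have h2 := hx a ha
        have h3 : y * (a * c) = a * (i + c * y) - a * i := by ring
        rw [h3]
        exact Ideal.sub_mem _ h2 (Ideal.mul_mem_left _ _ hi)
      have h1 := homogeneousComponent_eq_self hx0
      rw [map_add, mul_comm c y, unm_comp_mul _ _ 1 _ hy, if_pos (by omega),
        Nat.add_sub_cancel] at h1
      rw [mul_comm c y, ← h1]
      refine Ideal.add_mem _ (hI i hi _) (Ideal.mul_mem_left _ _ ?_)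
      exact ih _ (homogeneousComponent_isHomogeneous k c) (hcomp c hc k)
  apply hgI
  apply unm_sum_mem
  intro n
  exact key n _ (homogeneousComponent_isHomogeneous n g) (hcomp g hg n)

theorem unm_dim (q : Ideal A) (hq : q.IsPrime) : q.height ≤ 5 := by
  have h1 := Ideal.height_le_ringKrullDim_of_isPrime (I := q)
  have h2 : ringKrullDim A = 5 := by
    have := MvPolynomial.ringKrullDim_of_isNoetherianRing (R := ℂ) (ι := Fin 5)
    rw [ringKrullDim_eq_zero_of_field, Nat.card_eq_fintype_card, Fintype.card_fin, zero_add] at this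
    exact this
  rw [h2] at h1
  exact WithBot.coe_le_coe.1 h1

/-- **UNM** -/
theorem t_UNM (h : S_LNF) : S_UNM := by
  have main : ∀ (k r : ℕ) (f : Fin r → A) (b : Fin r → ℕ), r + k = 5 → (∀ j, 0 < b j) →
      (∀ j, (f j).IsHomogeneous (b j)) → PReg f →
      ∀ (q : Ideal A) (g : A), q.IsPrime → HomId q →
      (∀ a ∈ q, a * g ∈ Ideal.span (Set.range f)) →
      g ∉ Ideal.span (Set.range f) → q.height ≤ r := by
    intro k
    induction k with
    | zero =>
      intro r f b hr _ _ _ q g hq _ _ _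
      have h5 : r = 5 := by omega
      subst h5
      exact unm_dim q hq
    | succ k ih =>
      intro r f b hr hb hf hreg q g hq hqh hg hgI
      obtain ⟨y, hy, hyI, -, -, hcons⟩ := h r f b (by omega) hb hf hreg ∅ ∅ (by simp) (by simp)
      have hI := unm_homId_span hf
      obtain ⟨x, hx1, hx2⟩ := unm_elem hI hqh hy hyI hg hgI
      obtain ⟨P, x₁, hP, hx₁, hPx, hPa⟩ := unm_ass hx2
      obtain ⟨q', hq'p, hq'h, hq'P, hcore1, hcore2⟩ := unm_core hP
      have hJ : Ideal.span (Set.range (Fin.cons y f : Fin (r + 1) → A)) =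
          Ideal.span (Set.range f) ⊔ Ideal.span {y} := by
        rw [Fin.range_cons, Ideal.span_insert, sup_comm]
      have hqq' : q ≤ q' := hcore1 q hqh fun a ha =>
        hPa a (Ideal.mem_sup_left (hx1 a ha))
      have hyq' : y ∈ q' := by
        apply hcore2 y 1 hy
        apply hPa
        exact Ideal.mem_sup_right (Ideal.mul_mem_right _ _ (Ideal.mem_span_singleton_self y))
      have hyq : y ∉ q := fun h1 => hgI (hyI g (hg y h1))
      have hlt : q < q' := lt_of_le_of_ne hqq' fun h1 => hyq (h1 ▸ hyq')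
      have h3 := Ideal.height_add_one_le_of_lt_of_isPrime hlt
      have h4 : q'.height ≤ ((r + 1 : ℕ) : ℕ∞) := by
        refine ih (r + 1) (Fin.cons y f) (Fin.cons 1 b) (by omega) ?_ ?_ hcons q' x₁ hq'p hq'h
          ?_ ?_
        · intro j
          refine Fin.cases ?_ (fun j => ?_) j
          · simp
          · simpa using hb j
        · intro j
          refine Fin.cases ?_ (fun j => ?_) j
          · simpa using hy
          · simpa using hf j
        · intro a ha
          rw [hJ]
          exact hPx a (hq'P ha)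
        · rw [hJ]
          exact hx₁
      have h5 := h3.trans h4
      push_cast at h5
      exact (ENat.add_le_add_iff_right (by simp)).1 h5
  intro r f b hr hb hf hreg q g hq hqh hg hgI
  exact main (5 - r) r f b (by omega) hb hf hreg q g hq hqh hg hgI

end Pool.Agent.NOD.S1
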